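import Pool.Agent.Y987.SZ.FormsN

set_option autoImplicit false

/-! # Several linear forms at once, arbitrary index types (helper987) -/

namespace Pool.Agent.Y987.SZ

open Finset Filter

lemma exists_big {ι : Type} [Fintype ι] {s a : ι → ℤ} (hs : ∀ i, s i = 1 ∨ s i = -1) {p : ℕ}
    (hp : p.Prime) (hr : Fintype.card ι < p) : ∃ n : ℕ, ∀ i, ¬ (p : ℤ) ∣ s i * n + a i := by
  classical
  have : Fact p.Prime := ⟨hp⟩
  have h1 : ((univ : Finset ι).image (fun i => -((s i : ℤ) : ZMod p) *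
      ((a i : ℤ) : ZMod p))).card < (univ : Finset (ZMod p)).card := by
    refine lt_of_le_of_lt card_image_le ?_
    rw [card_univ, card_univ, ZMod.card]
    exact hr
  obtain ⟨n, -, hn⟩ := exists_mem_notMem_of_card_lt_card h1
  refine ⟨n.val, ?_⟩
  intro i hd
  apply hn
  rw [mem_image]
  refine ⟨i, mem_univ _, ?_⟩
  have h3 := (ZMod.intCast_zmod_eq_zero_iff_dvd _ p).2 hd
  push_cast at h3
  rw [ZMod.natCast_zmod_val] at h3
  rcases hs i with h | h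
  · rw [h] at h3 ⊢
    push_cast at h3 ⊢
    linear_combination -h3
  · rw [h] at h3 ⊢
    push_cast at h3 ⊢
    linear_combination h3

/-- the arguments `0 < m ≤ X` at which all forms `s i * m + a i` are free of primes `≤ y` -/
def RU {ι : Type} (s a : ι → ℤ) (X : ℕ) (y : ℝ) : Set ℕ :=
  {m | 0 < m ∧ m ≤ X ∧ ∀ p : ℕ, p.Prime → (p : ℝ) ≤ y → ∀ i, ¬ (p : ℤ) ∣ s i * m + a i}

theorem formsU (r : ℕ) : ∃ (κ c : ℝ), 0 < κ ∧ κ ≤ 1 ∧ 0 < c ∧ ∀ (k : ℕ) (ε : ℝ), 0 < ε →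
    ∃ B N₀ : ℕ, ∀ N X : ℕ, N₀ ≤ N → N ≤ X → X ≤ N ^ 2 → ∀ (ι : Type) [Fintype ι] (s a : ι → ℤ),
      Fintype.card ι = r → (∀ i, s i = 1 ∨ s i = -1) →
      (∀ p : ℕ, p.Prime → p ≤ r → ∃ n : ℕ, ∀ i, ¬ (p : ℤ) ∣ s i * n + a i) →
      c * (N / Real.log N ^ r) ≤ ((RU s a X ((X : ℝ) ^ κ)).ncard : ℝ) ∧
      ∀ S ⊆ RU s a X ((X : ℝ) ^ κ),
        ({m ∈ S | ¬ InP (k + 1) (Real.log N ^ B) S m}.ncard : ℝ) ≤
          ε * ((RU s a X ((X : ℝ) ^ κ)).ncard : ℝ) := by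
  obtain ⟨κ, c, hκ0, hκ1, hc, h⟩ := formsN r
  refine ⟨κ, c, hκ0, hκ1, hc, ?_⟩
  intro k ε hε
  obtain ⟨B, N₀, h1⟩ := h k ε hε
  refine ⟨B, N₀, ?_⟩
  intro N X hN hNX hXN ι _ s a hcard hs ha
  have e : Fin r ≃ ι := (Fintype.equivFinOfCardEq hcard).symm
  have h2 := h1 N X hN hNX hXN (fun i => s (e i)) (fun i => a (e i)) (fun i => hs _) (by
    intro p hp
    by_cases hpr : p ≤ r
    · obtain ⟨n, hn⟩ := ha p hp hpr
      exact ⟨n, fun i => hn _⟩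
    · obtain ⟨n, hn⟩ := exists_big (a := a) hs hp (by omega)
      exact ⟨n, fun i => hn _⟩)
  have h3 : RS (fun i => s (e i)) (fun i => a (e i)) X ((X : ℝ) ^ κ) = RU s a X ((X : ℝ) ^ κ) := by
    ext m
    unfold RS RU
    constructor
    · rintro ⟨g1, g2, g3⟩
      refine ⟨g1, g2, ?_⟩
      intro p hp hpy i hd
      apply g3 p hp hpy (e.symm i)
      simpa using hd
    · rintro ⟨g1, g2, g3⟩
      exact ⟨g1, g2, fun p hp hpy i hd => g3 p hp hpy (e i) hd⟩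
  rw [h3] at h2
  exact h2

/-- the number of prime factors from roughness, with polynomial bounds -/
lemma len_of {X n C R : ℕ} {κ : ℝ} (hκ : 0 < κ) (hX : 2 ≤ X) (hn0 : n ≠ 0) (hn : n ≤ X ^ C)
    (hR : (C : ℝ) / κ < R) (hp : ∀ p : ℕ, p.Prime → p ∣ n → (X : ℝ) ^ κ < p) :
    n.primeFactorsList.length ≤ R := by
  have hXr : (2 : ℝ) ≤ X := by exact_mod_cast hX
  apply len_rough (y := (X : ℝ) ^ κ) (Real.one_le_rpow (by linarith) hκ.le) hn0 _ hp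
  rw [← Real.rpow_natCast ((X : ℝ) ^ κ), ← Real.rpow_mul (by linarith)]
  calc (n : ℝ) ≤ (X : ℝ) ^ C := by exact_mod_cast hn
    _ = (X : ℝ) ^ (C : ℝ) := (Real.rpow_natCast _ _).symm
    _ < (X : ℝ) ^ (κ * ((R + 1 : ℕ) : ℝ)) := by
        apply Real.rpow_lt_rpow_of_exponent_lt (by linarith)
        rw [div_lt_iff₀ hκ] at hR
        push_cast
        nlinarith

end Pool.Agent.Y987.SZ
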