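import Pool.Agent.Y987.SZ.Base
import Pool.Agent.Y829.BT2

set_option autoImplicit false

/-! # Integers without prime factors `≤ X ^ (12 / 25)` in intervals of length `X` (helper987) -/

namespace Pool.Agent.Y987.SZ

open Finset Filter
open Pool.Agent.Y843.HS (Pr VV)

open Classical in
theorem lin4 : ∃ (c : ℝ) (X₀ : ℕ), 0 < c ∧ ∀ X A : ℕ, X₀ ≤ X → ∀ P : Finset ℕ,
    (∀ p ∈ P, p.Prime ∧ (p : ℝ) ≤ (X : ℝ) ^ (12 / 25 : ℝ)) →
    c * (X / Real.log X) ≤ (((Ioc A (A + X)).filter (fun m => ∀ p ∈ P, ¬ p ∣ m)).card : ℝ) := by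
  obtain ⟨c, U0, hc, h⟩ := Pool.Agent.Y829.lemA (1 / 50) (by norm_num) (by norm_num)
  obtain ⟨c1, C1, hc1, hC1, hm⟩ := mert
  obtain ⟨X1, hX1⟩ := log_floor (12 / 25) (by norm_num) (by norm_num)
  refine ⟨c * c1, max U0 X1, by positivity, ?_⟩
  intro X A hX P hP
  obtain ⟨h3, h4, h5, h6⟩ := hX1 X ((le_max_right _ _).trans hX)
  have hX0 : (0 : ℝ) ≤ (X : ℝ) ^ (12 / 25 : ℝ) := by positivity
  have hs := h X A P ((le_max_left _ _).trans hX) (fun p hp => by
    refine ⟨(hP p hp).1, ?_⟩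
    have := (hP p hp).2
    norm_num at this ⊢
    exact this)
  have hV : c1 / Real.log X ≤ Pool.Agent.Y829.V P := by
    have e1 : Pool.Agent.Y829.V (Pr 0 ⌊(X : ℝ) ^ (12 / 25 : ℝ)⌋₊) ≤ Pool.Agent.Y829.V P := by
      apply Pool.Agent.Y829.V_mono
      · intro p hp
        rw [mem_Pr0 hX0]
        exact hP p hp
      · intro p hp
        exact (mem_filter.1 hp).2
    refine le_trans ?_ e1
    have e2 := (hm _ h3).1
    refine le_trans ?_ e2
    have h7 : 0 < Real.log ⌊(X : ℝ) ^ (12 / 25 : ℝ)⌋₊ := lt_of_lt_of_le (by positivity) h4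
    exact div_le_div_of_nonneg_left hc1.le h7 h5
  rw [← Pool.Agent.Y829.Sf_eq] at hs
  calc c * c1 * (X / Real.log X) = c * (X * (c1 / Real.log X)) := by ring
    _ ≤ c * (X * Pool.Agent.Y829.V P) := by
        apply mul_le_mul_of_nonneg_left _ hc.le
        exact mul_le_mul_of_nonneg_left hV (Nat.cast_nonneg _)
    _ ≤ _ := by
        refine hs.trans (le_of_eq ?_)
        congr!

/-- The hereditary theorem for one class: if the classes `Z p` have one element outside the prime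
divisors `2` and `q` of the modulus, then the density is of the order `1 / log X`. -/
theorem her1 (k : ℕ) (hk : 1 ≤ k) (κ ε : ℝ) (hκ : 0 < κ) (hκ1 : κ ≤ 1) (hε : 0 < ε) :
    ∃ B X₀ : ℕ, ∀ X A : ℕ, X₀ ≤ X → ∀ Z : ℕ → Finset ℕ, Adm 1 ((X : ℝ) ^ κ) Z →
      (∀ p : ℕ, p.Prime → 2 < p → (p : ℝ) ≤ (X : ℝ) ^ κ → (Z p).card = 1) →
      ∀ S : Finset ℕ, S ⊆ Ioc A (A + X) → (∀ n ∈ S, Avoid ((X : ℝ) ^ κ) Z n) →
      (Set.ncard {n | n ∈ S ∧ ¬ InAP k (Real.log X ^ B) S n} : ℝ) ≤ ε * (X / Real.log X) := by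
  classical
  obtain ⟨c1, C1, hc1, hC1, hm⟩ := mert
  obtain ⟨B, X0, hher⟩ := her k 1 hk κ (ε * κ / (2 * Real.exp 1 * C1)) hκ (by positivity)
  obtain ⟨X1, hX1⟩ := log_floor κ hκ hκ1
  refine ⟨B, max X0 X1, ?_⟩
  intro X A hX Z hZ hZ1 S hS hav
  obtain ⟨h3, h4, h5, h6⟩ := hX1 X ((le_max_right _ _).trans hX)
  have hy0 : (0 : ℝ) ≤ (X : ℝ) ^ κ := by positivity
  have h := hher X A ((le_max_left _ _).trans hX) Z hZ S hS hav
  have e0 : (Set.ncard {n | n ∈ S ∧ ¬ InAP k (Real.log X ^ B) S n} : ℝ) =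
      ((S.filter (fun n => ¬ InAP k (Real.log X ^ B) S n)).card : ℝ) := by
    rw [← Set.ncard_coe_finset]
    congr 2
    ext n
    simp
  rw [e0]
  refine h.trans ?_
  set y := ⌊(X : ℝ) ^ κ⌋₊ with hy
  have hVV : VV Z 0 y ≤ Real.exp 1 * (C1 / Real.log y) := by
    refine (VV_le_exp Z y ?_).trans ?_
    · intro p hp
      rw [hy, mem_Pr0 hy0] at hp
      exact (hZ p hp.1 hp.2).2.1.le
    · have e1 : ∑ p ∈ Pr 0 y, 1 / (p : ℝ) - 1 ≤ ∑ p ∈ Pr 0 y, ((Z p).card : ℝ) / p := by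
        rw [sub_le_iff_le_add]
        have e2 : ∀ p ∈ Pr 0 y, 1 / (p : ℝ) ≤ ((Z p).card : ℝ) / p + if p = 2 then 1 else 0 := by
          intro p hp
          rw [hy, mem_Pr0 hy0] at hp
          have hp0 : (1 : ℝ) ≤ p := by exact_mod_cast hp.1.one_lt.le
          by_cases h2 : p = 2
          · rw [if_pos h2]
            have : 1 / (p : ℝ) ≤ 1 := by
              rw [div_le_one (by linarith)]
              exact hp0
            have h3 : (0 : ℝ) ≤ ((Z p).card : ℝ) / p := by positivity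
            linarith
          · rw [if_neg h2, hZ1 p hp.1 (lt_of_le_of_ne hp.1.two_le (Ne.symm h2)) hp.2]
            simp
        calc ∑ p ∈ Pr 0 y, 1 / (p : ℝ) ≤ ∑ p ∈ Pr 0 y, (((Z p).card : ℝ) / p + if p = 2 then 1 else 0) :=
              sum_le_sum e2
          _ ≤ ∑ p ∈ Pr 0 y, ((Z p).card : ℝ) / p + 1 := by
              rw [sum_add_distrib, sum_ite_eq']
              split_ifs <;> linarith
      calc Real.exp (-∑ p ∈ Pr 0 y, ((Z p).card : ℝ) / p)
          ≤ Real.exp (1 + -∑ p ∈ Pr 0 y, 1 / (p : ℝ)) := by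
            apply Real.exp_le_exp.2
            linarith
        _ = Real.exp 1 * Real.exp (-∑ p ∈ Pr 0 y, 1 / (p : ℝ)) := Real.exp_add _ _
        _ ≤ Real.exp 1 * (C1 / Real.log y) :=
            mul_le_mul_of_nonneg_left (hm y h3).2 (Real.exp_pos _).le
  have hly : 0 < Real.log y := lt_of_lt_of_le (by positivity) h4
  have hVV2 : VV Z 0 y ≤ Real.exp 1 * (C1 / (κ / 2 * Real.log X)) := by
    refine hVV.trans ?_
    apply mul_le_mul_of_nonneg_left _ (Real.exp_pos _).le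
    exact div_le_div_of_nonneg_left hC1.le (by positivity) h4
  calc ε * κ / (2 * Real.exp 1 * C1) * (X * VV Z 0 y)
      ≤ ε * κ / (2 * Real.exp 1 * C1) * (X * (Real.exp 1 * (C1 / (κ / 2 * Real.log X)))) := by
        apply mul_le_mul_of_nonneg_left _ (by positivity)
        exact mul_le_mul_of_nonneg_left hVV2 (Nat.cast_nonneg _)
    _ = ε * (X / Real.log X) := by
        field_simp

end Pool.Agent.Y987.SZ
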