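import Pool.Agent.Y843.HS.Top
import Pool.Agent.Helper256.KM.Mertens

set_option autoImplicit false

/-! # Narrow progressions in sifted sets: the hereditary form, Mertens' product (helper987) -/

namespace Pool.Agent.Y987.SZ

open Finset Filter
open Pool.Agent.Y843.HS (Pr VV S_FIN)

/-- at most `r` classes, not all, modulo every prime up to `y` -/
def Adm (r : ℕ) (y : ℝ) (Z : ℕ → Finset ℕ) : Prop :=
  ∀ p : ℕ, p.Prime → (p : ℝ) ≤ y → (Z p).card ≤ r ∧ (Z p).card < p ∧ ∀ c ∈ Z p, c < p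

/-- `n` avoids the classes -/
def Avoid (y : ℝ) (Z : ℕ → Finset ℕ) (n : ℕ) : Prop :=
  ∀ p : ℕ, p.Prime → (p : ℝ) ≤ y → n % p ∉ Z p

/-- `n` is a term of a progression of `k` terms of `S` with a difference `d`, `1 ≤ d ≤ L` -/
def InAP (k : ℕ) (L : ℝ) (S : Finset ℕ) (n : ℕ) : Prop :=
  ∃ a d : ℕ, 1 ≤ d ∧ (d : ℝ) ≤ L ∧ (∀ j < k, a + j * d ∈ S) ∧ ∃ j < k, n = a + j * d

lemma InAP.mono {k : ℕ} {L L' : ℝ} {S : Finset ℕ} {n : ℕ} (h : InAP k L S n) (hL : L ≤ L') :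
    InAP k L' S n := by
  obtain ⟨a, d, h1, h2, h3⟩ := h
  exact ⟨a, d, h1, h2.trans hL, h3⟩

open Classical in
/-- The hereditary form of Szemerédi's theorem relative to sifted sets. -/
theorem her (k r : ℕ) (hk : 1 ≤ k) (κ ε : ℝ) (hκ : 0 < κ) (hε : 0 < ε) : ∃ B X₀ : ℕ, ∀ X A : ℕ,
    X₀ ≤ X → ∀ Z : ℕ → Finset ℕ, Adm r ((X : ℝ) ^ κ) Z → ∀ S : Finset ℕ, S ⊆ Ioc A (A + X) →
      (∀ n ∈ S, Avoid ((X : ℝ) ^ κ) Z n) →
      ((S.filter (fun n => ¬ InAP k (Real.log X ^ B) S n)).card : ℝ) ≤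
        ε * (X * VV Z 0 ⌊(X : ℝ) ^ κ⌋₊) := by
  obtain ⟨B, X₀, h⟩ := Pool.Agent.Y843.HS.fin k r κ ε hκ hε
  refine ⟨B, X₀, ?_⟩
  intro X A hX Z hZ S hS hav
  by_contra hcon
  push Not at hcon
  obtain ⟨a, d, h1, h2, h3⟩ := h X A hX Z hZ (S.filter (fun n => ¬ InAP k (Real.log X ^ B) S n))
    ((filter_subset _ _).trans hS) (fun n hn p hp hpx => hav n (mem_filter.1 hn).1 p hp hpx)
    (by
      have : ε * X * VV Z 0 ⌊(X : ℝ) ^ κ⌋₊ = ε * (X * VV Z 0 ⌊(X : ℝ) ^ κ⌋₊) := by ring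
      rw [this]
      exact hcon.le)
  have h4 := mem_filter.1 (h3 0 (by omega))
  apply h4.2
  refine ⟨a, d, h1, h2, fun j hj => (mem_filter.1 (h3 j hj)).1, 0, by omega, by simp⟩

lemma Pr_zero (y : ℕ) : Pr 0 y = (Icc 1 y).filter Nat.Prime := by
  unfold Pr
  congr 1

lemma prod_sq (y : ℕ) (hy : 1 ≤ y) : ((y : ℝ) + 1) / (2 * y) ≤ ∏ k ∈ Ioc 1 y, (1 - 1 / (k : ℝ) ^ 2) := by
  induction y, hy using Nat.le_induction with
  | base => simp
  | succ n hn ih =>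
    rw [Finset.prod_Ioc_succ_top hn]
    have hn1 : (1 : ℝ) ≤ n := by exact_mod_cast hn
    push_cast
    have h1 : (0 : ℝ) ≤ 1 - 1 / ((n : ℝ) + 1) ^ 2 := by
      have : 1 / ((n : ℝ) + 1) ^ 2 ≤ 1 := by
        rw [div_le_one (by positivity)]
        nlinarith
      linarith
    refine le_trans (le_of_eq ?_) (mul_le_mul_of_nonneg_right ih h1)
    field_simp
    ring

/-- Mertens' theorem for the product. -/
theorem mert : ∃ c C : ℝ, 0 < c ∧ 0 < C ∧ ∀ y : ℕ, 3 ≤ y →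
    c / Real.log y ≤ ∏ p ∈ Pr 0 y, (1 - 1 / (p : ℝ)) ∧
    Real.exp (-∑ p ∈ Pr 0 y, 1 / (p : ℝ)) ≤ C / Real.log y := by
  obtain ⟨C0, hC0⟩ := Pool.Agent.Helper256.KM.mertens_inv
  refine ⟨Real.exp (-C0) / 2, Real.exp C0, by positivity, Real.exp_pos _, ?_⟩
  intro y hy
  have hy3 : (3 : ℝ) ≤ y := by exact_mod_cast hy
  have hlog : 0 < Real.log y := Real.log_pos (by linarith)
  have h := abs_le.1 (hC0 y hy)
  rw [← Pr_zero] at h
  constructor
  · have h1 : Real.exp (-∑ p ∈ Pr 0 y, 1 / (p : ℝ)) * (1 / 2) ≤ ∏ p ∈ Pr 0 y, (1 - 1 / (p : ℝ)) := by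
      have h2 : (1 / 2 : ℝ) ≤ ∏ p ∈ Pr 0 y, (1 - 1 / (p : ℝ) ^ 2) := by
        have h3 := prod_sq y (by omega)
        have h4 : (1 / 2 : ℝ) ≤ ((y : ℝ) + 1) / (2 * y) := by
          rw [div_le_div_iff₀ (by norm_num) (by positivity)]
          linarith
        refine h4.trans (h3.trans ?_)
        have hsub : Pr 0 y ⊆ Ioc 1 y := by
          intro p hp
          have hp' := mem_filter.1 hp
          rw [mem_Ioc] at hp' ⊢
          exact ⟨hp'.2.one_lt, hp'.1.2⟩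
        rw [← prod_sdiff hsub]
        have h0 : ∀ k ∈ Ioc 1 y, (0 : ℝ) ≤ 1 - 1 / (k : ℝ) ^ 2 ∧ 1 - 1 / (k : ℝ) ^ 2 ≤ 1 := by
          intro k hk
          have hk1 : (2 : ℝ) ≤ k := by exact_mod_cast (mem_Ioc.1 hk).1
          have h5 : 1 / (k : ℝ) ^ 2 ≤ 1 := by
            rw [div_le_one (by positivity)]
            nlinarith
          have h6 : 0 ≤ 1 / (k : ℝ) ^ 2 := by positivity
          constructor <;> linarith
        calc (∏ k ∈ Ioc 1 y \ Pr 0 y, (1 - 1 / (k : ℝ) ^ 2)) * ∏ p ∈ Pr 0 y, (1 - 1 / (p : ℝ) ^ 2)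
            ≤ 1 * ∏ p ∈ Pr 0 y, (1 - 1 / (p : ℝ) ^ 2) := by
              apply mul_le_mul_of_nonneg_right
              · exact prod_le_one (fun k hk => (h0 k (mem_sdiff.1 hk).1).1)
                  (fun k hk => (h0 k (mem_sdiff.1 hk).1).2)
              · exact prod_nonneg (fun p hp => (h0 p (hsub hp)).1)
          _ = _ := one_mul _
      rw [← sum_neg_distrib, Real.exp_sum]
      calc (∏ p ∈ Pr 0 y, Real.exp (-(1 / (p : ℝ)))) * (1 / 2)
          ≤ (∏ p ∈ Pr 0 y, Real.exp (-(1 / (p : ℝ)))) * ∏ p ∈ Pr 0 y, (1 - 1 / (p : ℝ) ^ 2) :=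
            mul_le_mul_of_nonneg_left h2 (prod_nonneg fun _ _ => (Real.exp_pos _).le)
        _ = ∏ p ∈ Pr 0 y, (Real.exp (-(1 / (p : ℝ))) * (1 - 1 / (p : ℝ) ^ 2)) := by
            rw [prod_mul_distrib]
        _ ≤ ∏ p ∈ Pr 0 y, (1 - 1 / (p : ℝ)) := by
            apply Finset.prod_le_prod
            · intro p hp
              have hp2 : (2 : ℝ) ≤ p := by exact_mod_cast (mem_filter.1 hp).2.two_le
              have : 1 / (p : ℝ) ^ 2 ≤ 1 := by
                rw [div_le_one (by positivity)]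
                nlinarith
              exact mul_nonneg (Real.exp_pos _).le (by linarith)
            · intro p hp
              have hp2 : (2 : ℝ) ≤ p := by exact_mod_cast (mem_filter.1 hp).2.two_le
              have e1 : (1 - 1 / (p : ℝ) ^ 2) = (1 - 1 / (p : ℝ)) * (1 + 1 / p) := by
                field_simp
                ring
              have e2 : 0 ≤ 1 - 1 / (p : ℝ) := by
                have : 1 / (p : ℝ) ≤ 1 := by
                  rw [div_le_one (by positivity)]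
                  linarith
                linarith
              have e3 : Real.exp (-(1 / (p : ℝ))) * (1 + 1 / p) ≤ 1 := by
                have := Real.add_one_le_exp (1 / (p : ℝ))
                rw [Real.exp_neg, inv_mul_le_iff₀ (Real.exp_pos _)]
                linarith
              rw [e1]
              calc Real.exp (-(1 / (p : ℝ))) * ((1 - 1 / (p : ℝ)) * (1 + 1 / p))
                  = (1 - 1 / (p : ℝ)) * (Real.exp (-(1 / (p : ℝ))) * (1 + 1 / p)) := by ring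
                _ ≤ (1 - 1 / (p : ℝ)) * 1 := mul_le_mul_of_nonneg_left e3 e2
                _ = _ := mul_one _
    refine le_trans ?_ h1
    have h2 : Real.exp (-C0) / Real.log y ≤ Real.exp (-∑ p ∈ Pr 0 y, 1 / (p : ℝ)) := by
      have : Real.exp (-C0) / Real.log y = Real.exp (-C0 - Real.log (Real.log y)) := by
        rw [Real.exp_sub, Real.exp_log hlog]
      rw [this]
      apply Real.exp_le_exp.2
      linarith [h.2]
    have h3 : Real.exp (-C0) / 2 / Real.log y = Real.exp (-C0) / Real.log y * (1 / 2) := by ring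
    rw [h3]
    exact mul_le_mul_of_nonneg_right h2 (by norm_num)
  · have : Real.exp C0 / Real.log y = Real.exp (C0 - Real.log (Real.log y)) := by
      rw [Real.exp_sub, Real.exp_log hlog]
    rw [this]
    apply Real.exp_le_exp.2
    linarith [h.1]

/-- upper bound for the density of a sifted set -/
lemma VV_le_exp (Z : ℕ → Finset ℕ) (y : ℕ) (hc : ∀ p ∈ Pr 0 y, (Z p).card ≤ p) :
    VV Z 0 y ≤ Real.exp (-∑ p ∈ Pr 0 y, ((Z p).card : ℝ) / p) := by
  unfold VV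
  rw [← sum_neg_distrib, Real.exp_sum]
  apply Finset.prod_le_prod
  · intro p hp
    have hp0 : (0 : ℝ) < p := by exact_mod_cast (mem_filter.1 hp).2.pos
    have h1 : ((Z p).card : ℝ) ≤ p := by exact_mod_cast hc p hp
    have : ((Z p).card : ℝ) / p ≤ 1 := by
      rw [div_le_one hp0]
      exact h1
    linarith
  · intro p _
    have := Real.add_one_le_exp (-(((Z p).card : ℝ) / p))
    linarith

lemma mem_Pr0 {x : ℝ} (hx : 0 ≤ x) {p : ℕ} : p ∈ Pr 0 ⌊x⌋₊ ↔ p.Prime ∧ (p : ℝ) ≤ x := by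
  unfold Pr
  rw [mem_filter, mem_Ioc, Nat.le_floor_iff hx]
  constructor
  · rintro ⟨⟨_, h⟩, h'⟩
    exact ⟨h', h⟩
  · rintro ⟨h', h⟩
    exact ⟨⟨h'.pos, h⟩, h'⟩

/-- `log ⌊X ^ κ⌋` is of the order of `log X`. -/
lemma log_floor (κ : ℝ) (hκ : 0 < κ) (hκ1 : κ ≤ 1) : ∃ X₀ : ℕ, ∀ X : ℕ, X₀ ≤ X →
    3 ≤ ⌊(X : ℝ) ^ κ⌋₊ ∧ κ / 2 * Real.log X ≤ Real.log ⌊(X : ℝ) ^ κ⌋₊ ∧
      Real.log ⌊(X : ℝ) ^ κ⌋₊ ≤ Real.log X ∧ 0 < Real.log X := by
  have ht : Tendsto (fun X : ℕ => (X : ℝ) ^ (κ / 2)) atTop atTop :=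
    (tendsto_rpow_atTop (by positivity)).comp tendsto_natCast_atTop_atTop
  obtain ⟨X1, hX1⟩ := (ht.eventually_ge_atTop 4).exists_forall_of_atTop
  refine ⟨max X1 3, ?_⟩
  intro X hX
  have h1 := hX1 X ((le_max_left _ _).trans hX)
  have hX3 : 3 ≤ X := (le_max_right _ _).trans hX
  have hXr : (3 : ℝ) ≤ X := by exact_mod_cast hX3
  have hX0 : (0 : ℝ) < X := by linarith
  have hlog : 0 < Real.log X := Real.log_pos (by linarith)
  have h2 : (X : ℝ) ^ κ = (X : ℝ) ^ (κ / 2) * (X : ℝ) ^ (κ / 2) := by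
    rw [← Real.rpow_add hX0]
    congr 1
    ring
  have h3 : (X : ℝ) ^ (κ / 2) + 1 ≤ (X : ℝ) ^ κ := by
    rw [h2]
    nlinarith
  have h4 : (X : ℝ) ^ (κ / 2) ≤ ⌊(X : ℝ) ^ κ⌋₊ := by
    have := Nat.lt_floor_add_one ((X : ℝ) ^ κ)
    linarith
  have h5 : (⌊(X : ℝ) ^ κ⌋₊ : ℝ) ≤ X := by
    refine (Nat.floor_le (by positivity)).trans ?_
    calc (X : ℝ) ^ κ ≤ (X : ℝ) ^ (1 : ℝ) := Real.rpow_le_rpow_of_exponent_le (by linarith) hκ1
      _ = X := Real.rpow_one _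
  have h6 : (3 : ℝ) ≤ ⌊(X : ℝ) ^ κ⌋₊ := by linarith
  refine ⟨by exact_mod_cast h6, ?_, Real.log_le_log (by linarith) h5, hlog⟩
  have := Real.log_le_log (by positivity) h4
  rwa [Real.log_rpow hX0] at this

end Pool.Agent.Y987.SZ
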