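import Pool.Agent.Y987.SZ.Low

set_option autoImplicit false

/-! # Several linear forms `± m + a` at once: count and hereditary progressions (helper987) -/

namespace Pool.Agent.Y987.SZ

open Finset Filter
open Pool.Agent.Y843.HS (Pr VV)

lemma prod_sq_prime (y : ℕ) (hy : 1 ≤ y) : (1 / 2 : ℝ) ≤ ∏ p ∈ Pr 0 y, (1 - 1 / (p : ℝ) ^ 2) := by
  have h1 := prod_sq y hy
  have hy0 : (0 : ℝ) < y := by exact_mod_cast hy
  have h2 : (1 / 2 : ℝ) ≤ ((y : ℝ) + 1) / (2 * y) := by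
    rw [div_le_div_iff₀ (by norm_num) (by positivity)]
    linarith
  refine h2.trans (h1.trans ?_)
  have hsub : Pr 0 y ⊆ Ioc 1 y := by
    intro p hp
    have hp' := mem_filter.1 hp
    exact mem_Ioc.2 ⟨hp'.2.one_lt, (mem_Ioc.1 hp'.1).2⟩
  rw [← prod_sdiff hsub]
  have hb : ∀ k ∈ Ioc 1 y, 0 ≤ 1 - 1 / (k : ℝ) ^ 2 ∧ 1 - 1 / (k : ℝ) ^ 2 ≤ 1 := by
    intro k hk
    have hk1 : (1 : ℝ) < k := by exact_mod_cast (mem_Ioc.1 hk).1
    have h3 : 1 / (k : ℝ) ^ 2 ≤ 1 := by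
      rw [div_le_one (by positivity)]
      nlinarith
    have h4 : 0 ≤ 1 / (k : ℝ) ^ 2 := by positivity
    constructor <;> linarith
  calc (∏ k ∈ Ioc 1 y \ Pr 0 y, (1 - 1 / (k : ℝ) ^ 2)) * ∏ p ∈ Pr 0 y, (1 - 1 / (p : ℝ) ^ 2)
      ≤ 1 * ∏ p ∈ Pr 0 y, (1 - 1 / (p : ℝ) ^ 2) := by
        apply mul_le_mul_of_nonneg_right
        · exact prod_le_one (fun p hp => (hb p (mem_sdiff.1 hp).1).1)
            (fun p hp => (hb p (mem_sdiff.1 hp).1).2)
        · exact prod_nonneg (fun p hp => (hb p (hsub hp)).1)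
    _ = _ := one_mul _

/-- `1 - u ≥ exp (- u - u²)` for `0 ≤ u ≤ 1/2` -/
lemma one_sub_ge2 {u : ℝ} (h0 : 0 ≤ u) (h1 : u ≤ 1 / 2) : Real.exp (-u - u ^ 2) ≤ 1 - u := by
  have h2 : Real.exp (u + u ^ 2) ≥ 1 / (1 - u) := by
    have h3 := Real.quadratic_le_exp_of_nonneg (x := u + u ^ 2) (by positivity)
    refine le_trans ?_ h3
    rw [div_le_iff₀ (by linarith)]
    have : (1 + (u + u ^ 2) + (u + u ^ 2) ^ 2 / 2) * (1 - u) - 1 =
        u ^ 2 / 2 * (1 - u - u ^ 2 - u ^ 3) := by ring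
    have h4 : 0 ≤ 1 - u - u ^ 2 - u ^ 3 := by nlinarith [mul_nonneg h0 h0, mul_nonneg (mul_nonneg h0 h0) (sub_nonneg.2 h1)]
    nlinarith [mul_nonneg (sq_nonneg u) h4]
  have h5 : Real.exp (-u - u ^ 2) = 1 / Real.exp (u + u ^ 2) := by
    rw [one_div, ← Real.exp_neg]
    congr 1
    ring
  rw [h5, div_le_iff₀ (Real.exp_pos _)]
  have h6 : (1 - u) * (1 / (1 - u)) = 1 := by
    rw [mul_one_div, div_self (by linarith)]
  calc (1 : ℝ) = (1 - u) * (1 / (1 - u)) := h6.symm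
    _ ≤ (1 - u) * Real.exp (u + u ^ 2) := mul_le_mul_of_nonneg_left h2 (by linarith)

/-- the density of a sifted set is at least of the order `(log y) ^ (-r)` -/
theorem VV_lower (r : ℕ) : ∃ c : ℝ, 0 < c ∧ ∀ y : ℕ, 3 ≤ y → ∀ Z : ℕ → Finset ℕ,
    Adm r (y : ℝ) Z → c / Real.log y ^ r ≤ VV Z 0 y := by
  obtain ⟨c1, C1, hc1, hC1, hm⟩ := mert
  refine ⟨(1 / (2 * r + 1 : ℝ)) ^ (2 * r + 1) * (c1 ^ r * (1 / 2) ^ (r ^ 2)), by positivity, ?_⟩
  intro y hy Z hZ
  have hy3 : (3 : ℝ) ≤ y := by exact_mod_cast hy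
  have hly : 0 < Real.log y := Real.log_pos (by linarith)
  set s := 2 * r with hs
  -- large primes
  have hbig : ∀ p ∈ (Pr 0 y).filter (fun p => ¬ p ≤ s),
      (1 - 1 / (p : ℝ)) ^ r * (1 - 1 / (p : ℝ) ^ 2) ^ (r ^ 2) ≤ 1 - ((Z p).card : ℝ) / p := by
    intro p hp
    have hp' := mem_filter.1 hp
    have hp1 := mem_filter.1 hp'.1
    have hp2 := mem_Ioc.1 hp1.1
    have hp0 : (0 : ℝ) < p := by exact_mod_cast hp2.1
    have hpone : (1 : ℝ) ≤ p := by exact_mod_cast hp1.2.one_le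
    have hcard : ((Z p).card : ℝ) ≤ r := by
      exact_mod_cast (hZ p hp1.2 (by exact_mod_cast hp2.2)).1
    have h1 : (r : ℝ) / p ≤ 1 / 2 := by
      rw [div_le_div_iff₀ hp0 (by norm_num)]
      have : s < p := by
        have := hp'.2
        omega
      have : ((s : ℕ) : ℝ) < p := by exact_mod_cast this
      rw [hs] at this
      push_cast at this
      linarith
    have h2 := one_sub_ge2 (u := (r : ℝ) / p) (by positivity) h1
    have h3 : ((Z p).card : ℝ) / p ≤ r / p := div_le_div_of_nonneg_right hcard hp0.le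
    have h4 : (1 - 1 / (p : ℝ)) ^ r ≤ Real.exp (-((r : ℝ) / p)) := by
      have h5 : 1 - 1 / (p : ℝ) ≤ Real.exp (-(1 / (p : ℝ))) := by
        have := Real.add_one_le_exp (-(1 / (p : ℝ)))
        linarith
      have h6 : 0 ≤ 1 - 1 / (p : ℝ) := by
        have : 1 / (p : ℝ) ≤ 1 := by
          rw [div_le_one hp0]
          exact hpone
        linarith
      calc (1 - 1 / (p : ℝ)) ^ r ≤ Real.exp (-(1 / (p : ℝ))) ^ r := pow_le_pow_left₀ h6 h5 r
        _ = Real.exp (-((r : ℝ) / p)) := by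
          rw [← Real.exp_nat_mul]
          congr 1
          ring
    have h7 : (1 - 1 / (p : ℝ) ^ 2) ^ (r ^ 2) ≤ Real.exp (-(((r : ℝ) / p) ^ 2)) := by
      have h5 : 1 - 1 / (p : ℝ) ^ 2 ≤ Real.exp (-(1 / (p : ℝ) ^ 2)) := by
        have := Real.add_one_le_exp (-(1 / (p : ℝ) ^ 2))
        linarith
      have h6 : 0 ≤ 1 - 1 / (p : ℝ) ^ 2 := by
        have : 1 / (p : ℝ) ^ 2 ≤ 1 := by
          rw [div_le_one (by positivity)]
          nlinarith
        linarith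
      calc (1 - 1 / (p : ℝ) ^ 2) ^ (r ^ 2) ≤ Real.exp (-(1 / (p : ℝ) ^ 2)) ^ (r ^ 2) :=
            pow_le_pow_left₀ h6 h5 _
        _ = Real.exp (-(((r : ℝ) / p) ^ 2)) := by
          rw [← Real.exp_nat_mul]
          congr 1
          push_cast
          field_simp
    have h8 : 0 ≤ (1 - 1 / (p : ℝ) ^ 2) ^ (r ^ 2) := by
      apply pow_nonneg
      have : 1 / (p : ℝ) ^ 2 ≤ 1 := by
        rw [div_le_one (by positivity)]
        nlinarith
      linarith
    calc (1 - 1 / (p : ℝ)) ^ r * (1 - 1 / (p : ℝ) ^ 2) ^ (r ^ 2)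
        ≤ Real.exp (-((r : ℝ) / p)) * Real.exp (-(((r : ℝ) / p) ^ 2)) :=
          mul_le_mul h4 h7 h8 (Real.exp_pos _).le
      _ = Real.exp (-((r : ℝ) / p) - ((r : ℝ) / p) ^ 2) := by
          rw [← Real.exp_add]
          congr 1
      _ ≤ 1 - (r : ℝ) / p := h2
      _ ≤ _ := by linarith
  -- small primes
  have hsmall : (1 / (2 * r + 1 : ℝ)) ^ (2 * r + 1) ≤
      ∏ p ∈ (Pr 0 y).filter (fun p => p ≤ s), (1 - ((Z p).card : ℝ) / p) := by
    have h1 : ∀ p ∈ (Pr 0 y).filter (fun p => p ≤ s),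
        1 / (2 * r + 1 : ℝ) ≤ 1 - ((Z p).card : ℝ) / p := by
      intro p hp
      have hp' := mem_filter.1 hp
      have hp1 := mem_filter.1 hp'.1
      have hp2 := mem_Ioc.1 hp1.1
      have hp0 : (0 : ℝ) < p := by exact_mod_cast hp2.1
      have hcard : ((Z p).card : ℝ) + 1 ≤ p := by
        exact_mod_cast (hZ p hp1.2 (by exact_mod_cast hp2.2)).2.1
      have h2 : 1 / (p : ℝ) ≤ 1 - ((Z p).card : ℝ) / p := by
        rw [le_sub_iff_add_le, ← add_div, div_le_one hp0]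
        linarith
      refine le_trans ?_ h2
      apply one_div_le_one_div_of_le hp0
      have : (p : ℝ) ≤ s := by exact_mod_cast hp'.2
      rw [hs] at this
      push_cast at this
      linarith
    calc (1 / (2 * r + 1 : ℝ)) ^ (2 * r + 1) ≤
          (1 / (2 * r + 1 : ℝ)) ^ ((Pr 0 y).filter (fun p => p ≤ s)).card := by
          apply pow_le_pow_of_le_one (by positivity)
          · rw [div_le_one (by positivity)]
            have : (0 : ℝ) ≤ r := Nat.cast_nonneg _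
            linarith
          · calc ((Pr 0 y).filter (fun p => p ≤ s)).card ≤ (range (s + 1)).card := by
                  apply card_le_card
                  intro p hp
                  have := (mem_filter.1 hp).2
                  exact mem_range.2 (by omega)
              _ = 2 * r + 1 := by rw [card_range, hs]
      _ = ∏ _p ∈ (Pr 0 y).filter (fun p => p ≤ s), (1 / (2 * r + 1 : ℝ)) := by
          rw [prod_const]
      _ ≤ _ := by
          apply Finset.prod_le_prod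
          · intro p _
            positivity
          · exact h1
  have hfac : ∀ p ∈ Pr 0 y, 0 ≤ (1 - 1 / (p : ℝ)) ^ r * (1 - 1 / (p : ℝ) ^ 2) ^ (r ^ 2) ∧
      (1 - 1 / (p : ℝ)) ^ r * (1 - 1 / (p : ℝ) ^ 2) ^ (r ^ 2) ≤ 1 := by
    intro p hp
    have hp1 := mem_filter.1 hp
    have hpone : (1 : ℝ) ≤ p := by exact_mod_cast hp1.2.one_le
    have hp0 : (0 : ℝ) < p := by linarith
    have h1 : 1 / (p : ℝ) ≤ 1 := by
      rw [div_le_one hp0]
      exact hpone
    have h2 : 1 / (p : ℝ) ^ 2 ≤ 1 := by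
      rw [div_le_one (by positivity)]
      nlinarith
    have h3 : 0 ≤ 1 / (p : ℝ) := by positivity
    have h4 : 0 ≤ 1 / (p : ℝ) ^ 2 := by positivity
    have h5 : 0 ≤ (1 - 1 / (p : ℝ)) ^ r := pow_nonneg (by linarith) _
    have h6 : 0 ≤ (1 - 1 / (p : ℝ) ^ 2) ^ (r ^ 2) := pow_nonneg (by linarith) _
    refine ⟨mul_nonneg h5 h6, ?_⟩
    have h7 : (1 - 1 / (p : ℝ)) ^ r ≤ 1 := pow_le_one₀ (by linarith) (by linarith)
    have h8 : (1 - 1 / (p : ℝ) ^ 2) ^ (r ^ 2) ≤ 1 := pow_le_one₀ (by linarith) (by linarith)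
    nlinarith
  have hlarge : c1 ^ r * (1 / 2) ^ (r ^ 2) / Real.log y ^ r ≤
      ∏ p ∈ (Pr 0 y).filter (fun p => ¬ p ≤ s), (1 - ((Z p).card : ℝ) / p) := by
    calc c1 ^ r * (1 / 2) ^ (r ^ 2) / Real.log y ^ r = (c1 / Real.log y) ^ r * (1 / 2) ^ (r ^ 2) := by
          rw [div_pow]
          ring
      _ ≤ (∏ p ∈ Pr 0 y, (1 - 1 / (p : ℝ))) ^ r * (∏ p ∈ Pr 0 y, (1 - 1 / (p : ℝ) ^ 2)) ^ (r ^ 2) := by
          apply mul_le_mul
          · exact pow_le_pow_left₀ (by positivity) (hm y hy).1 r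
          · exact pow_le_pow_left₀ (by norm_num) (prod_sq_prime y (by omega)) _
          · positivity
          · apply pow_nonneg
            apply prod_nonneg
            intro p hp
            have hp1 := mem_filter.1 hp
            have hpone : (1 : ℝ) ≤ p := by exact_mod_cast hp1.2.one_le
            have : 1 / (p : ℝ) ≤ 1 := by
              rw [div_le_one (by linarith)]
              exact hpone
            linarith
      _ = ∏ p ∈ Pr 0 y, ((1 - 1 / (p : ℝ)) ^ r * (1 - 1 / (p : ℝ) ^ 2) ^ (r ^ 2)) := by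
          rw [prod_mul_distrib, prod_pow, prod_pow]
      _ ≤ ∏ p ∈ (Pr 0 y).filter (fun p => ¬ p ≤ s),
            ((1 - 1 / (p : ℝ)) ^ r * (1 - 1 / (p : ℝ) ^ 2) ^ (r ^ 2)) := by
          rw [← prod_filter_mul_prod_filter_not (Pr 0 y) (fun p => p ≤ s)]
          calc _ ≤ 1 * ∏ p ∈ (Pr 0 y).filter (fun p => ¬ p ≤ s),
                ((1 - 1 / (p : ℝ)) ^ r * (1 - 1 / (p : ℝ) ^ 2) ^ (r ^ 2)) := by
                apply mul_le_mul_of_nonneg_right
                · exact prod_le_one (fun p hp => (hfac p (mem_filter.1 hp).1).1)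
                    (fun p hp => (hfac p (mem_filter.1 hp).1).2)
                · exact prod_nonneg (fun p hp => (hfac p (mem_filter.1 hp).1).1)
            _ = _ := one_mul _
      _ ≤ _ := by
          apply Finset.prod_le_prod
          · intro p hp
            exact (hfac p (mem_filter.1 hp).1).1
          · exact hbig
  unfold VV
  rw [← prod_filter_mul_prod_filter_not (Pr 0 y) (fun p => p ≤ s)]
  calc (1 / (2 * r + 1 : ℝ)) ^ (2 * r + 1) * (c1 ^ r * (1 / 2) ^ (r ^ 2)) / Real.log y ^ r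
      = (1 / (2 * r + 1 : ℝ)) ^ (2 * r + 1) * (c1 ^ r * (1 / 2) ^ (r ^ 2) / Real.log y ^ r) := by ring
    _ ≤ _ := mul_le_mul hsmall hlarge (by positivity) (le_trans (by positivity) hsmall)

/-- the elements of `(A, A + X]` which avoid the classes -/
noncomputable def Sift (X A : ℕ) (y : ℝ) (Z : ℕ → Finset ℕ) : Finset ℕ := by
  classical exact (Ioc A (A + X)).filter (fun n => Avoid y Z n)

lemma mem_Sift {X A : ℕ} {y : ℝ} {Z : ℕ → Finset ℕ} {n : ℕ} :
    n ∈ Sift X A y Z ↔ (A < n ∧ n ≤ A + X) ∧ Avoid y Z n := by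
  classical
  unfold Sift
  rw [mem_filter, mem_Ioc]

open Classical in
/-- **Count and hereditary progressions in sifted sets** -/
theorem sifted (r : ℕ) : ∃ (κ c : ℝ), 0 < κ ∧ κ ≤ 1 ∧ 0 < c ∧ ∀ (k : ℕ) (ε : ℝ), 1 ≤ k → 0 < ε →
    ∃ B X₀ : ℕ, ∀ X A : ℕ, X₀ ≤ X → ∀ Z : ℕ → Finset ℕ, Adm r ((X : ℝ) ^ κ) Z →
      c * (X / Real.log X ^ r) ≤ ((Sift X A ((X : ℝ) ^ κ) Z).card : ℝ) ∧
      ∀ S ⊆ Sift X A ((X : ℝ) ^ κ) Z,
        ((S.filter (fun n => ¬ InAP k (Real.log X ^ B) S n)).card : ℝ) ≤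
          ε * ((Sift X A ((X : ℝ) ^ κ) Z).card : ℝ) := by
  obtain ⟨κ, c, X1, hκ0, hκ1, hc, hlow⟩ := low r
  obtain ⟨c2, hc2, hV⟩ := VV_lower r
  obtain ⟨X2, hX2⟩ := log_floor κ hκ0 hκ1
  refine ⟨κ, c * c2, hκ0, hκ1, by positivity, ?_⟩
  intro k ε hk hε
  obtain ⟨B, X3, hher⟩ := her k r hk κ (ε * c) hκ0 (by positivity)
  refine ⟨B, max X1 (max X2 X3), ?_⟩
  intro X A hX Z hZ
  have g1 : X1 ≤ X := (le_max_left _ _).trans hX
  have g2 : X2 ≤ X := (le_max_left _ _).trans ((le_max_right _ _).trans hX)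
  have g3 : X3 ≤ X := (le_max_right _ _).trans ((le_max_right _ _).trans hX)
  obtain ⟨h3, h4, h5, h6⟩ := hX2 X g2
  have hy0 : (0 : ℝ) ≤ (X : ℝ) ^ κ := by positivity
  have e1 : c * (X * VV Z 0 ⌊(X : ℝ) ^ κ⌋₊) ≤ ((Sift X A ((X : ℝ) ^ κ) Z).card : ℝ) := by
    refine (hlow X A g1 Z hZ).trans (le_of_eq ?_)
    unfold Sift
    congr!
  have e2 : c2 / Real.log X ^ r ≤ VV Z 0 ⌊(X : ℝ) ^ κ⌋₊ := by
    refine le_trans ?_ (hV _ h3 Z ?_)
    · have h7 : 0 < Real.log ⌊(X : ℝ) ^ κ⌋₊ := lt_of_lt_of_le (by positivity) h4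
      apply div_le_div_of_nonneg_left hc2.le (by positivity)
      exact pow_le_pow_left₀ h7.le h5 r
    · intro p hp hpy
      exact hZ p hp (hpy.trans (Nat.floor_le hy0))
  refine ⟨?_, ?_⟩
  · refine le_trans ?_ e1
    calc c * c2 * (X / Real.log X ^ r) = c * (X * (c2 / Real.log X ^ r)) := by ring
      _ ≤ _ := by
        apply mul_le_mul_of_nonneg_left _ hc.le
        exact mul_le_mul_of_nonneg_left e2 (Nat.cast_nonneg _)
  · intro S hS
    have e3 := hher X A g3 Z hZ S (fun n hn => mem_Ioc.2 (mem_Sift.1 (hS hn)).1)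
      (fun n hn => (mem_Sift.1 (hS hn)).2)
    refine le_trans (le_of_eq ?_) (e3.trans ?_)
    · congr!
    · calc ε * c * (X * VV Z 0 ⌊(X : ℝ) ^ κ⌋₊) = ε * (c * (X * VV Z 0 ⌊(X : ℝ) ^ κ⌋₊)) := by ring
        _ ≤ _ := mul_le_mul_of_nonneg_left e1 hε.le

/-! ### linear forms -/

/-- the signs -/
def Signs {r : ℕ} (s : Fin r → ℤ) : Prop := ∀ i, s i = 1 ∨ s i = -1

/-- no prime divides some form at every argument -/
def AdmF {r : ℕ} (s a : Fin r → ℤ) : Prop :=
  ∀ p : ℕ, p.Prime → ∃ n : ℕ, ∀ i, ¬ (p : ℤ) ∣ s i * n + a i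

/-- none of the numbers `s i * m + a i` has a prime factor `≤ y` -/
def RoughF {r : ℕ} (s a : Fin r → ℤ) (y : ℝ) (m : ℕ) : Prop :=
  ∀ p : ℕ, p.Prime → (p : ℝ) ≤ y → ∀ i, ¬ (p : ℤ) ∣ s i * m + a i

open Classical in
/-- the classes -/
noncomputable def Zf {r : ℕ} (s a : Fin r → ℤ) (p : ℕ) : Finset ℕ :=
  (range p).filter (fun c => ∃ i, (p : ℤ) ∣ s i * c + a i)

lemma dvd_mod {r : ℕ} (s a : Fin r → ℤ) (p m : ℕ) (i : Fin r) :
    (p : ℤ) ∣ s i * ((m % p : ℕ) : ℤ) + a i ↔ (p : ℤ) ∣ s i * m + a i := by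
  have h1 : (m : ℤ) = ((m % p : ℕ) : ℤ) + p * ((m / p : ℕ) : ℤ) := by
    exact_mod_cast (Nat.mod_add_div m p).symm
  have h2 : s i * m + a i = (s i * ((m % p : ℕ) : ℤ) + a i) + p * (s i * ((m / p : ℕ) : ℤ)) := by
    rw [h1]
    push_cast
    ring_nf
  rw [h2]
  exact (dvd_add_left (dvd_mul_right _ _)).symm

lemma avoid_iff {r : ℕ} (s a : Fin r → ℤ) (y : ℝ) (m : ℕ) :
    Avoid y (Zf s a) m ↔ RoughF s a y m := by
  classical
  constructor
  · intro h p hp hpy i hd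
    apply h p hp hpy
    unfold Zf
    rw [mem_filter]
    exact ⟨mem_range.2 (Nat.mod_lt _ hp.pos), i, (dvd_mod s a p m i).2 hd⟩
  · intro h p hp hpy hmem
    unfold Zf at hmem
    rw [mem_filter] at hmem
    obtain ⟨_, i, hi⟩ := hmem
    exact h p hp hpy i ((dvd_mod s a p m i).1 hi)

lemma adm_forms {r : ℕ} {s a : Fin r → ℤ} (hs : Signs s) (ha : AdmF s a) (y : ℝ) :
    Adm r y (Zf s a) := by
  classical
  intro p hp _
  refine ⟨?_, ?_, ?_⟩
  · -- one class for each form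
    have h1 : Zf s a p ⊆ (univ : Finset (Fin r)).biUnion
        (fun i => (range p).filter (fun c : ℕ => (p : ℤ) ∣ s i * c + a i)) := by
      intro c hc
      unfold Zf at hc
      rw [mem_filter] at hc
      obtain ⟨h1, i, hi⟩ := hc
      rw [mem_biUnion]
      exact ⟨i, mem_univ _, mem_filter.2 ⟨h1, hi⟩⟩
    refine (card_le_card h1).trans (card_biUnion_le.trans ?_)
    calc ∑ i : Fin r, ((range p).filter (fun c : ℕ => (p : ℤ) ∣ s i * c + a i)).card
        ≤ ∑ _i : Fin r, 1 := by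
          apply sum_le_sum
          intro i _
          rw [card_le_one]
          intro c hc d hd
          rw [mem_filter, mem_range] at hc hd
          have h2 : (p : ℤ) ∣ s i * ((c : ℤ) - d) := by
            have := dvd_sub hc.2 hd.2
            have e : s i * (c : ℤ) + a i - (s i * d + a i) = s i * ((c : ℤ) - d) := by ring
            rwa [e] at this
          have h3 : (p : ℤ) ∣ (c : ℤ) - d := by
            rcases hs i with h | h
            · rw [h, one_mul] at h2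
              exact h2
            · rw [h, neg_one_mul] at h2
              exact (dvd_neg.1 h2)
          have h4 : |(c : ℤ) - d| < p := by
            rw [abs_lt]
            omega
          have h5 := Int.eq_zero_of_abs_lt_dvd h3 h4
          omega
      _ = r := by simp
  · obtain ⟨n, hn⟩ := ha p hp
    have h1 : Zf s a p ⊆ (range p).erase (n % p) := by
      intro c hc
      unfold Zf at hc
      rw [mem_filter] at hc
      obtain ⟨h1, i, hi⟩ := hc
      rw [mem_erase]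
      refine ⟨?_, h1⟩
      intro h
      rw [h] at hi
      exact hn i ((dvd_mod s a p n i).1 hi)
    have h2 := card_le_card h1
    rw [card_erase_of_mem (mem_range.2 (Nat.mod_lt _ hp.pos)), card_range] at h2
    have := hp.pos
    omega
  · intro c hc
    unfold Zf at hc
    rw [mem_filter] at hc
    exact mem_range.1 hc.1

/-- the arguments in `(0, X]` at which all forms are rough -/
noncomputable def RF {r : ℕ} (s a : Fin r → ℤ) (X : ℕ) (y : ℝ) : Finset ℕ := by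
  classical exact (Ioc 0 X).filter (fun m => RoughF s a y m)

lemma mem_RF {r : ℕ} {s a : Fin r → ℤ} {X : ℕ} {y : ℝ} {m : ℕ} :
    m ∈ RF s a X y ↔ (0 < m ∧ m ≤ X) ∧ RoughF s a y m := by
  classical
  unfold RF
  rw [mem_filter, mem_Ioc]

open Classical in
/-- **Simultaneously rough values of linear forms `± m + a`, uniformly in the `a`** -/
theorem forms (r : ℕ) : ∃ (κ c : ℝ), 0 < κ ∧ κ ≤ 1 ∧ 0 < c ∧ ∀ (k : ℕ) (ε : ℝ), 1 ≤ k → 0 < ε →
    ∃ B X₀ : ℕ, ∀ X : ℕ, X₀ ≤ X → ∀ s a : Fin r → ℤ, Signs s → AdmF s a →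
      c * (X / Real.log X ^ r) ≤ ((RF s a X ((X : ℝ) ^ κ)).card : ℝ) ∧
      ∀ S ⊆ RF s a X ((X : ℝ) ^ κ),
        ((S.filter (fun n => ¬ InAP k (Real.log X ^ B) S n)).card : ℝ) ≤
          ε * ((RF s a X ((X : ℝ) ^ κ)).card : ℝ) := by
  obtain ⟨κ, c, hκ0, hκ1, hc, h⟩ := sifted r
  refine ⟨κ, c, hκ0, hκ1, hc, ?_⟩
  intro k ε hk hε
  obtain ⟨B, X₀, h1⟩ := h k ε hk hε
  refine ⟨B, X₀, ?_⟩
  intro X hX s a hs ha
  have h2 := h1 X 0 hX (Zf s a) (adm_forms hs ha _)
  have h3 : Sift X 0 ((X : ℝ) ^ κ) (Zf s a) = RF s a X ((X : ℝ) ^ κ) := by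
    ext m
    rw [mem_Sift, mem_RF, avoid_iff, zero_add]
  rw [h3] at h2
  exact h2

/-- a number without prime factors `≤ y` and smaller than `y ^ (t + 1)` has at most `t` prime
factors -/
lemma len_rough {m t : ℕ} {y : ℝ} (hy : 1 ≤ y) (hm0 : m ≠ 0) (hm : (m : ℝ) < y ^ (t + 1))
    (hp : ∀ p : ℕ, p.Prime → p ∣ m → y < p) : m.primeFactorsList.length ≤ t := by
  by_contra hcon
  push Not at hcon
  have h2 : ∀ l : List ℕ, (∀ p ∈ l, y < p) → y ^ l.length ≤ (l.prod : ℕ) := by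
    intro l
    induction l with
    | nil => intro _; simp
    | cons a l ih =>
      intro h
      have i1 := ih (fun p hp => h p (List.mem_cons_of_mem _ hp))
      have i2 := h a List.mem_cons_self
      rw [List.length_cons, List.prod_cons, pow_succ, mul_comm, Nat.cast_mul]
      exact mul_le_mul i2.le i1 (by positivity) (by positivity)
  have h3 := h2 m.primeFactorsList (fun p hpm =>
    hp p (Nat.prime_of_mem_primeFactorsList hpm) (Nat.dvd_of_mem_primeFactorsList hpm))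
  rw [Nat.prod_primeFactorsList hm0] at h3
  have h4 : y ^ (t + 1) ≤ y ^ m.primeFactorsList.length := pow_le_pow_right₀ hy (by omega)
  linarith

end Pool.Agent.Y987.SZ
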