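import Pool.Agent.Y987.SZ.Forms

set_option autoImplicit false

/-! # Several linear forms at once, version with sets (helper987) -/

namespace Pool.Agent.Y987.SZ

open Finset Filter

/-- `m` is a term of a progression of `t` terms of `S` with a difference `d`, `1 ≤ d ≤ L`. -/
def InP (t : ℕ) (L : ℝ) (S : Set ℕ) (m : ℕ) : Prop :=
  ∃ a d : ℕ, 1 ≤ d ∧ (d : ℝ) ≤ L ∧ (∀ j < t, a + j * d ∈ S) ∧ ∃ j < t, m = a + j * d

/-- the arguments `0 < m ≤ X` at which all forms `s i * m + a i` are free of primes `≤ y` -/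
def RS {r : ℕ} (s a : Fin r → ℤ) (X : ℕ) (y : ℝ) : Set ℕ :=
  {m | 0 < m ∧ m ≤ X ∧ ∀ p : ℕ, p.Prime → (p : ℝ) ≤ y → ∀ i, ¬ (p : ℤ) ∣ s i * m + a i}

lemma RS_eq {r : ℕ} (s a : Fin r → ℤ) (X : ℕ) (y : ℝ) : RS s a X y = (RF s a X y : Set ℕ) := by
  ext m
  rw [Finset.mem_coe, mem_RF]
  unfold RS RoughF
  simp only [Set.mem_setOf_eq]
  tauto

theorem formsN (r : ℕ) : ∃ (κ c : ℝ), 0 < κ ∧ κ ≤ 1 ∧ 0 < c ∧ ∀ (k : ℕ) (ε : ℝ), 0 < ε →
    ∃ B N₀ : ℕ, ∀ N X : ℕ, N₀ ≤ N → N ≤ X → X ≤ N ^ 2 → ∀ s a : Fin r → ℤ, Signs s → AdmF s a →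
      c * (N / Real.log N ^ r) ≤ ((RS s a X ((X : ℝ) ^ κ)).ncard : ℝ) ∧
      ∀ S ⊆ RS s a X ((X : ℝ) ^ κ),
        ({m ∈ S | ¬ InP (k + 1) (Real.log N ^ B) S m}.ncard : ℝ) ≤
          ε * ((RS s a X ((X : ℝ) ^ κ)).ncard : ℝ) := by
  classical
  obtain ⟨κ, c, hκ0, hκ1, hc, h⟩ := forms r
  refine ⟨κ, c / 2 ^ r, hκ0, hκ1, by positivity, ?_⟩
  intro k ε hε
  obtain ⟨B, X₀, h1⟩ := h (k + 1) ε (by omega) hε
  refine ⟨2 * B, max X₀ 8, ?_⟩
  intro N X hN hNX hXN s a hs ha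
  have hN8 : 8 ≤ N := (le_max_right _ _).trans hN
  have hNr : (8 : ℝ) ≤ N := by exact_mod_cast hN8
  have hNXr : (N : ℝ) ≤ X := by exact_mod_cast hNX
  have hlog2 : 2 ≤ Real.log N := by
    have h1 : Real.log 8 ≤ Real.log N := Real.log_le_log (by norm_num) hNr
    have h2 : Real.log 8 = 3 * Real.log 2 := by
      rw [show (8 : ℝ) = 2 ^ 3 by norm_num, Real.log_pow]
      norm_num
    have := Real.log_two_gt_d9
    linarith
  have hlogX : Real.log X ≤ 2 * Real.log N := by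
    have h2 : (X : ℝ) ≤ (N : ℝ) ^ 2 := by exact_mod_cast hXN
    have h3 := Real.log_le_log (by linarith) h2
    rwa [Real.log_pow] at h3
  have hlX0 : 0 < Real.log X := by
    have := Real.log_le_log (by linarith) hNXr
    linarith
  obtain ⟨e1, e2⟩ := h1 X (((le_max_left _ _).trans hN).trans hNX) s a hs ha
  rw [RS_eq, Set.ncard_coe_finset]
  refine ⟨?_, ?_⟩
  · refine le_trans ?_ e1
    calc c / 2 ^ r * (N / Real.log N ^ r) = c * (N / (2 * Real.log N) ^ r) := by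
          rw [mul_pow]
          field_simp
      _ ≤ c * (X / Real.log X ^ r) := by
          apply mul_le_mul_of_nonneg_left _ hc.le
          apply div_le_div₀ (by positivity) hNXr (by positivity)
          exact pow_le_pow_left₀ hlX0.le hlogX r
  · intro S hS
    have hSfin : S.Finite := (RF s a X ((X : ℝ) ^ κ)).finite_toSet.subset hS
    have e3 := e2 hSfin.toFinset (by
      intro m hm
      rw [Set.Finite.mem_toFinset] at hm
      exact Finset.mem_coe.1 (hS hm))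
    have h2 : ({m ∈ S | ¬ InP (k + 1) (Real.log N ^ (2 * B)) S m}.ncard : ℝ) ≤
        ((hSfin.toFinset.filter (fun m =>
          ¬ InAP (k + 1) (Real.log X ^ B) hSfin.toFinset m)).card : ℝ) := by
      rw [Nat.cast_le, ← Set.ncard_coe_finset]
      apply Set.ncard_le_ncard
      · intro m hm
        rw [Finset.mem_coe, Finset.mem_filter]
        refine ⟨(Set.Finite.mem_toFinset _).2 hm.1, ?_⟩
        intro hAP
        apply hm.2
        obtain ⟨a, d, i1, i2, i3, i4⟩ := hAP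
        refine ⟨a, d, i1, i2.trans ?_, fun j hj => (Set.Finite.mem_toFinset _).1 (i3 j hj), i4⟩
        rw [pow_mul]
        apply pow_le_pow_left₀ hlX0.le
        nlinarith
      · exact Finset.finite_toSet _
    refine h2.trans ?_
    refine le_trans (le_of_eq ?_) e3
    congr!

end Pool.Agent.Y987.SZ
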