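import Pool.Agent.Y987.SZ.Lin

set_option autoImplicit false

/-! # Almost primes with at most four prime factors in short intervals: count and progressions (helper987) -/

namespace Pool.Agent.Y987.SZ

open Finset Filter
open Pool.Agent.Y843.HS (Pr VV)

lemma len4 {X m : ℕ} (hX : 2 ≤ X) (hm0 : m ≠ 0) (hm : m ^ 5 < X ^ 12)
    (hp : ∀ p : ℕ, p.Prime → p ∣ m → (X : ℝ) ^ (12 / 25 : ℝ) < p) : m.primeFactorsList.length ≤ 4 := by
  by_contra hcon
  push Not at hcon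
  have hX1 : (1 : ℝ) < X := by exact_mod_cast (by omega : 1 < X)
  have h1 : ((X : ℝ) ^ (12 / 25 : ℝ)) ^ m.primeFactorsList.length ≤ m := by
    have h2 : ∀ l : List ℕ, (∀ p ∈ l, (X : ℝ) ^ (12 / 25 : ℝ) < p) →
        ((X : ℝ) ^ (12 / 25 : ℝ)) ^ l.length ≤ (l.prod : ℕ) := by
      intro l
      induction l with
      | nil => intro _; simp
      | cons a l ih =>
        intro h
        have i1 := ih (fun p hp => h p (List.mem_cons_of_mem _ hp))
        have i2 := h a List.mem_cons_self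
        rw [List.length_cons, List.prod_cons, pow_succ, mul_comm, Nat.cast_mul]
        exact mul_le_mul i2.le i1 (by positivity) (by positivity)
    have h3 := h2 m.primeFactorsList (fun p hpm =>
      hp p (Nat.prime_of_mem_primeFactorsList hpm) (Nat.dvd_of_mem_primeFactorsList hpm))
    rwa [Nat.prod_primeFactorsList hm0] at h3
  have h4 : ((X : ℝ) ^ (12 / 25 : ℝ)) ^ 5 ≤ m := by
    refine le_trans ?_ h1
    apply pow_le_pow_right₀ _ hcon
    exact Real.one_le_rpow hX1.le (by norm_num)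
  have h5 : ((X : ℝ) ^ (12 / 25 : ℝ)) ^ 5 = (X : ℝ) ^ (12 / 5 : ℝ) := by
    rw [← Real.rpow_natCast, ← Real.rpow_mul (by linarith)]
    norm_num
  rw [h5] at h4
  have h6 : ((X : ℝ) ^ (12 / 5 : ℝ)) ^ 5 ≤ (m : ℝ) ^ 5 := pow_le_pow_left₀ (by positivity) h4 5
  have h7 : ((X : ℝ) ^ (12 / 5 : ℝ)) ^ 5 = (X : ℝ) ^ 12 := by
    rw [← Real.rpow_natCast, ← Real.rpow_mul (by linarith), ← Real.rpow_natCast]
    norm_num
  rw [h7] at h6
  have h8 : (m : ℝ) ^ 5 < (X : ℝ) ^ 12 := by exact_mod_cast hm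
  linarith

/-- The number of the integers of an interval of length `X`, not higher than `X ^ (12 / 5)`, with at most
four prime factors, all larger than `X ^ (12 / 25)`. -/
theorem cnt4 : ∃ (c : ℝ) (X₀ : ℕ), 0 < c ∧ ∀ X A : ℕ, X₀ ≤ X → (A + X) ^ 5 < X ^ 12 →
    c * (X / Real.log X) ≤ (Set.ncard {m | A < m ∧ m ≤ A + X ∧ m.primeFactorsList.length ≤ 4 ∧
      ∀ p : ℕ, p.Prime → p ∣ m → (X : ℝ) ^ (12 / 25 : ℝ) < p} : ℝ) := by
  classical
  obtain ⟨c, X₀, hc, h⟩ := lin4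
  refine ⟨c, max X₀ 2, hc, ?_⟩
  intro X A hX hAX
  have hX2 : 2 ≤ X := (le_max_right _ _).trans hX
  have hy0 : (0 : ℝ) ≤ (X : ℝ) ^ (12 / 25 : ℝ) := by positivity
  have h1 := h X A ((le_max_left _ _).trans hX) (Pr 0 ⌊(X : ℝ) ^ (12 / 25 : ℝ)⌋₊)
    (fun p hp => (mem_Pr0 hy0).1 hp)
  refine h1.trans ?_
  rw [← Set.ncard_coe_finset, Nat.cast_le]
  apply Set.ncard_le_ncard
  · intro m hm
    rw [mem_coe, mem_filter, mem_Ioc] at hm
    obtain ⟨⟨h2, h3⟩, h4⟩ := hm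
    have hp : ∀ p : ℕ, p.Prime → p ∣ m → (X : ℝ) ^ (12 / 25 : ℝ) < p := by
      intro p hp hpm
      by_contra hcon
      push Not at hcon
      exact h4 p ((mem_Pr0 hy0).2 ⟨hp, hcon⟩) hpm
    refine ⟨h2, h3, len4 hX2 (by omega) (lt_of_le_of_lt (Nat.pow_le_pow_left h3 5) hAX) hp, hp⟩
  · exact (Set.finite_Icc 0 (A + X)).subset (fun m hm => ⟨Nat.zero_le _, hm.2.1⟩)

/-- The hereditary theorem for rough integers in an interval. -/
theorem her4 (k : ℕ) (hk : 1 ≤ k) (κ ε : ℝ) (hκ : 0 < κ) (hκ1 : κ ≤ 1) (hε : 0 < ε) :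
    ∃ B X₀ : ℕ, ∀ X A : ℕ, X₀ ≤ X → ∀ S : Finset ℕ, S ⊆ Ioc A (A + X) →
      (∀ m ∈ S, ∀ p : ℕ, p.Prime → p ∣ m → (X : ℝ) ^ κ < p) →
      (Set.ncard {n | n ∈ S ∧ ¬ InAP k (Real.log X ^ B) S n} : ℝ) ≤ ε * (X / Real.log X) := by
  obtain ⟨B, X₀, h⟩ := her1 k hk κ ε hκ hκ1 hε
  refine ⟨B, X₀, ?_⟩
  intro X A hX S hS hp
  apply h X A hX (fun _ => {0}) _ _ S hS
  · intro m hm p hp' hpx
    rw [mem_singleton]
    intro h0
    have := hp m hm p hp' (Nat.dvd_of_mod_eq_zero h0)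
    linarith
  · intro p hp' _
    refine ⟨by simp, by simpa using hp'.one_lt, ?_⟩
    intro c hc
    rw [mem_singleton] at hc
    rw [hc]
    exact hp'.pos
  · intro p _ _ _
    simp

end Pool.Agent.Y987.SZ
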