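import Pool.Agent.Y987.SZ.Base

set_option autoImplicit false

/-! # A lower bound sieve for arbitrary systems of classes (helper987) -/

namespace Pool.Agent.Y987.SZ

open Finset Filter
open Pool.Agent.Y843.HS (Pr VV Sv)

lemma one_sub_ge {x : ℝ} (h0 : 0 ≤ x) (h1 : x ≤ 1 / 2) : Real.exp (-(2 * x)) ≤ 1 - x := by
  -- `exp (-2x) (1 + 2x) ≤ 1` and `(1 - x) (1 + 2x) ≥ 1`
  have h2 := Real.add_one_le_exp (2 * x)
  rw [Real.exp_neg, inv_le_comm₀ (Real.exp_pos _) (by linarith)]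
  rw [inv_le_comm₀ (by linarith) (Real.exp_pos _)]
  rw [inv_le_comm₀ (Real.exp_pos _) (by linarith)]
  refine le_trans ?_ h2
  rw [inv_le_iff_one_le_mul₀ (by linarith)]
  nlinarith

lemma exists_class (Z : ℕ → Finset ℕ) (s : ℕ) (hZ : ∀ p ∈ Pr 0 s, (Z p).card < p) :
    ∃ a : ℕ, ∀ p ∈ Pr 0 s, a % p ∉ Z p := by
  classical
  have h1 : ∀ p ∈ Pr 0 s, ∃ c ∈ range p, c ∉ Z p := by
    intro p hp
    by_contra hcon
    push Not at hcon
    have : (range p).card ≤ (Z p).card := card_le_card hcon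
    rw [card_range] at this
    have := hZ p hp
    omega
  choose! c hc1 hc2 using h1
  obtain ⟨a, ha⟩ := Nat.chineseRemainderOfFinset c id (Pr 0 s)
    (fun p hp => (mem_filter.1 hp).2.ne_zero)
    (by
      intro p hp q hq hpq
      exact (Nat.coprime_primes (mem_filter.1 hp).2 (mem_filter.1 hq).2).2 hpq)
  refine ⟨a, ?_⟩
  intro p hp hmem
  have h2 := ha p hp
  have h3 : a % p = c p := by
    have : a % p = c p % p := h2
    rw [this, Nat.mod_eq_of_lt (mem_range.1 (hc1 p hp))]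
  rw [h3] at hmem
  exact hc2 p hp hmem

lemma VV_pos {r : ℕ} {y : ℝ} {Z : ℕ → Finset ℕ} (hZ : Adm r y Z) (hy : 0 ≤ y) (s : ℕ) :
    0 < VV Z s ⌊y⌋₊ := by
  unfold VV
  apply prod_pos
  intro p hp
  have hp' := mem_filter.1 hp
  have h1 := mem_Ioc.1 hp'.1
  have h2 : (p : ℝ) ≤ y := (Nat.le_floor_iff hy).1 h1.2
  have hp0 : (0 : ℝ) < p := by exact_mod_cast hp'.2.pos
  have h3 : ((Z p).card : ℝ) < p := by exact_mod_cast (hZ p hp'.2 h2).2.1
  have : ((Z p).card : ℝ) / p < 1 := by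
    rw [div_lt_one hp0]
    exact h3
  linarith

lemma VV_split {r : ℕ} {y : ℝ} {Z : ℕ → Finset ℕ} (hZ : Adm r y Z) (hy : 0 ≤ y) (s : ℕ) :
    VV Z 0 ⌊y⌋₊ ≤ VV Z s ⌊y⌋₊ := by
  unfold VV
  have hsub : Pr s ⌊y⌋₊ ⊆ Pr 0 ⌊y⌋₊ := by
    intro p hp
    have hp' := mem_filter.1 hp
    have h1 := mem_Ioc.1 hp'.1
    exact mem_filter.2 ⟨mem_Ioc.2 ⟨by omega, h1.2⟩, hp'.2⟩
  have hb : ∀ p ∈ Pr 0 ⌊y⌋₊, 0 ≤ 1 - ((Z p).card : ℝ) / p ∧ 1 - ((Z p).card : ℝ) / p ≤ 1 := by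
    intro p hp
    rw [mem_Pr0 hy] at hp
    have hp0 : (0 : ℝ) < p := by exact_mod_cast hp.1.pos
    have h3 : ((Z p).card : ℝ) < p := by exact_mod_cast (hZ p hp.1 hp.2).2.1
    have h4 : ((Z p).card : ℝ) / p < 1 := by
      rw [div_lt_one hp0]
      exact h3
    have h5 : 0 ≤ ((Z p).card : ℝ) / p := by positivity
    constructor <;> linarith
  rw [← prod_sdiff hsub]
  calc (∏ p ∈ Pr 0 ⌊y⌋₊ \ Pr s ⌊y⌋₊, (1 - ((Z p).card : ℝ) / p)) * ∏ p ∈ Pr s ⌊y⌋₊, (1 - ((Z p).card : ℝ) / p)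
      ≤ 1 * ∏ p ∈ Pr s ⌊y⌋₊, (1 - ((Z p).card : ℝ) / p) := by
        apply mul_le_mul_of_nonneg_right
        · exact prod_le_one (fun p hp => (hb p (mem_sdiff.1 hp).1).1) (fun p hp => (hb p (mem_sdiff.1 hp).1).2)
        · exact prod_nonneg (fun p hp => (hb p (hsub hp)).1)
    _ = _ := one_mul _

open Classical in
/-- **A lower bound sieve, uniform in the interval and in the classes.** -/
theorem low (r : ℕ) : ∃ (κ c : ℝ) (X₀ : ℕ), 0 < κ ∧ κ ≤ 1 ∧ 0 < c ∧ ∀ X A : ℕ, X₀ ≤ X →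
    ∀ Z : ℕ → Finset ℕ, Adm r ((X : ℝ) ^ κ) Z →
      c * (X * VV Z 0 ⌊(X : ℝ) ^ κ⌋₊) ≤
        (((Ioc A (A + X)).filter (fun n => Avoid ((X : ℝ) ^ κ) Z n)).card : ℝ) := by
  obtain ⟨C, hC, hflc⟩ := Pool.Agent.Y151.HS.flc
  obtain ⟨C0, hC0⟩ := Pool.Agent.Helper256.KM.mertens_inv
  have hC00 : 0 ≤ C0 := (abs_nonneg _).trans (hC0 3 le_rfl)
  set b := 2 * C * (r + 1) with hb
  have hb2 : 2 ≤ b := by
    rw [hb]
    nlinarith [Nat.mul_le_mul hC (show 1 ≤ r + 1 by omega)]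
  have hbr : 2 * r ≤ b := by
    rw [hb]
    nlinarith [Nat.mul_le_mul hC (show r ≤ r + 1 by omega)]
  set D := ∏ p ∈ Pr 0 b, p with hD
  have hDpos : 0 < D := prod_pos (fun p hp => (mem_filter.1 hp).2.pos)
  have hDr : (0 : ℝ) < D := by exact_mod_cast hDpos
  have hCb : 0 < C * b := Nat.mul_pos hC (by omega)
  set κ : ℝ := 1 / (4 * (C * b : ℕ)) with hκ
  have hCbr : (1 : ℝ) ≤ ((C * b : ℕ) : ℝ) := by exact_mod_cast hCb
  have hκ0 : 0 < κ := by rw [hκ]; positivity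
  have hκ1 : κ ≤ 1 := by
    rw [hκ, div_le_one (by positivity)]
    linarith
  -- largeness
  have ht1 : Tendsto (fun X : ℕ => (X : ℝ) ^ κ) atTop atTop :=
    (tendsto_rpow_atTop hκ0).comp tendsto_natCast_atTop_atTop
  obtain ⟨X1, hX1⟩ := (ht1.eventually_ge_atTop ((b : ℝ) + 3)).exists_forall_of_atTop
  have ht2 : Tendsto (fun X : ℕ => Real.log X ^ (2 * r) / (X : ℝ) ^ (1 / 2 : ℝ)) atTop (nhds 0) := by
    have h := (Real.isLittleO_pow_log_id_atTop (n := 4 * r)).tendsto_div_nhds_zero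
    have h1 : Tendsto (fun X : ℕ => (Real.log X ^ (4 * r) / (X : ℝ)) ^ (1 / 2 : ℝ)) atTop (nhds 0) := by
      have h2 : Tendsto (fun X : ℕ => Real.log X ^ (4 * r) / (X : ℝ)) atTop (nhds 0) :=
        h.comp tendsto_natCast_atTop_atTop
      have h3 := h2.rpow_const (p := (1 / 2 : ℝ)) (Or.inr (by norm_num))
      rwa [Real.zero_rpow (by norm_num)] at h3
    refine h1.congr' ?_
    filter_upwards [eventually_ge_atTop 1] with X hX
    have hX1 : (1 : ℝ) ≤ X := by exact_mod_cast hX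
    have hl : 0 ≤ Real.log X := Real.log_nonneg hX1
    rw [Real.div_rpow (by positivity) (by positivity)]
    congr 1
    rw [← Real.rpow_natCast, ← Real.rpow_mul hl, ← Real.rpow_natCast]
    congr 1
    push_cast
    ring
  set E : ℝ := Real.exp (-(2 * r * C0)) / (4 * D) with hE
  have hE0 : 0 < E := by rw [hE]; positivity
  obtain ⟨X2, hX2⟩ := (ht2.eventually_le_const hE0).exists_forall_of_atTop
  refine ⟨κ, 1 / (2 * D), max (max X1 X2) (max 3 (2 ^ (2 * (C * b)))), hκ0, hκ1, by positivity, ?_⟩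
  intro X A hX Z hZ
  have g1 : X1 ≤ X := (le_max_left _ _).trans ((le_max_left _ _).trans hX)
  have g2 : X2 ≤ X := (le_max_right _ _).trans ((le_max_left _ _).trans hX)
  have g3 : 3 ≤ X := (le_max_left _ _).trans ((le_max_right _ _).trans hX)
  have g4 : 2 ^ (2 * (C * b)) ≤ X := (le_max_right _ _).trans ((le_max_right _ _).trans hX)
  have hXr : (3 : ℝ) ≤ X := by exact_mod_cast g3
  have hX0 : (0 : ℝ) < X := by linarith
  have hyb := hX1 X g1
  have hy0 : (0 : ℝ) ≤ (X : ℝ) ^ κ := by positivity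
  -- the exponent `J`
  have hex : ∃ J : ℕ, X < (2 ^ 2 ^ J) ^ (2 * (C * b)) := by
    refine ⟨X, ?_⟩
    calc X < 2 ^ X := Nat.lt_two_pow_self
      _ ≤ 2 ^ 2 ^ X := Nat.pow_le_pow_right (by norm_num) Nat.lt_two_pow_self.le
      _ = (2 ^ 2 ^ X) ^ 1 := (pow_one _).symm
      _ ≤ (2 ^ 2 ^ X) ^ (2 * (C * b)) := Nat.pow_le_pow_right (by positivity) (by omega)
  have hJ1 := Nat.find_spec hex
  have hJ0 : Nat.find hex ≠ 0 := by
    intro h0
    rw [h0] at hJ1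
    have : (2 ^ 2 ^ 0) ^ (2 * (C * b)) = 2 ^ (2 * (C * b)) := by norm_num
    rw [this] at hJ1
    omega
  obtain ⟨J, hJ⟩ : ∃ J, Nat.find hex = J + 1 := Nat.exists_eq_succ_of_ne_zero hJ0
  have hJlow : (2 ^ 2 ^ J) ^ (2 * (C * b)) ≤ X := by
    have := Nat.find_min hex (m := J) (by omega)
    omega
  rw [hJ] at hJ1
  set Y := 2 ^ 2 ^ J with hY
  have hYup : X < Y ^ (4 * (C * b)) := by
    refine lt_of_lt_of_le hJ1 (le_of_eq ?_)
    rw [hY, pow_succ 2 J, pow_mul 2 (2 ^ J) 2, ← pow_mul]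
    congr 1
    ring
  have hY1 : (1 : ℝ) ≤ Y := by
    have : 1 ≤ Y := Nat.one_le_two_pow
    exact_mod_cast this
  have hκY : (X : ℝ) ^ κ ≤ Y := by
    have h1 : (X : ℝ) ≤ (Y : ℝ) ^ (4 * (C * b)) := by exact_mod_cast hYup.le
    calc (X : ℝ) ^ κ ≤ ((Y : ℝ) ^ (4 * (C * b))) ^ κ := Real.rpow_le_rpow hX0.le h1 hκ0.le
      _ = Y := by
        rw [← Real.rpow_natCast, ← Real.rpow_mul (by positivity), hκ]
        have : ((4 * (C * b) : ℕ) : ℝ) * (1 / (4 * ((C * b : ℕ) : ℝ))) = 1 := by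
          push_cast
          field_simp
        rw [this, Real.rpow_one]
  -- the truncated system
  obtain ⟨Z', hZ'⟩ : ∃ Z' : ℕ → Finset ℕ, ∀ p, Z' p = if (p : ℝ) ≤ (X : ℝ) ^ κ then Z p else ∅ :=
    ⟨fun p => if (p : ℝ) ≤ (X : ℝ) ^ κ then Z p else ∅, fun p => rfl⟩
  obtain ⟨a, ha⟩ := exists_class Z b (by
    intro p hp
    have hp' := mem_filter.1 hp
    have h1 : (p : ℝ) ≤ b := by exact_mod_cast (mem_Ioc.1 hp'.1).2
    exact (hZ p hp'.2 (by linarith)).2.1)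
  have hSv : Sv r b Y Z' := by
    intro p hp
    have hp' := mem_filter.1 hp
    rw [hZ' p]
    split_ifs with h
    · exact ⟨(hZ p hp'.2 h).1, (hZ p hp'.2 h).2.2⟩
    · simp
  have hmain := hflc r b b J (by rw [hb]; nlinarith [Nat.mul_le_mul hC (show 1 ≤ r + 1 by omega)])
    (by rw [hb]; nlinarith [Nat.mul_le_mul hC (show 1 ≤ r + 1 by omega)]) Z' hSv D a A X hDpos (by
      intro p hp hpD
      have hp' := mem_filter.1 hp
      rw [hD, (hp'.2.prime).dvd_finset_prod_iff] at hpD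
      obtain ⟨q, hq, hpq⟩ := hpD
      have hq' := mem_filter.1 hq
      have := (Nat.prime_dvd_prime_iff_eq hp'.2 hq'.2).1 hpq
      have h1 := (mem_Ioc.1 hp'.1).1
      have h2 := (mem_Ioc.1 hq'.1).2
      omega)
  -- the product
  have hprod : ∏ p ∈ Pr b Y, (1 - ((Z' p).card : ℝ) / p) = VV Z b ⌊(X : ℝ) ^ κ⌋₊ := by
    unfold VV
    have hsub : Pr b ⌊(X : ℝ) ^ κ⌋₊ ⊆ Pr b Y := by
      intro p hp
      have hp' := mem_filter.1 hp
      have h1 := mem_Ioc.1 hp'.1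
      have h2 : (p : ℝ) ≤ Y := ((Nat.le_floor_iff hy0).1 h1.2).trans hκY
      exact mem_filter.2 ⟨mem_Ioc.2 ⟨h1.1, by exact_mod_cast h2⟩, hp'.2⟩
    rw [← prod_subset hsub]
    · apply prod_congr rfl
      intro p hp
      have hp' := mem_filter.1 hp
      have h1 := mem_Ioc.1 hp'.1
      rw [hZ' p, if_pos ((Nat.le_floor_iff hy0).1 h1.2)]
    · intro p hp hpn
      have hp' := mem_filter.1 hp
      have h1 := mem_Ioc.1 hp'.1
      have h2 : ¬ (p : ℝ) ≤ (X : ℝ) ^ κ := by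
        intro h
        exact hpn (mem_filter.2 ⟨mem_Ioc.2 ⟨h1.1, (Nat.le_floor_iff hy0).2 h⟩, hp'.2⟩)
      rw [hZ' p, if_neg h2]
      simp
  rw [hprod] at hmain
  set W := VV Z b ⌊(X : ℝ) ^ κ⌋₊ with hW
  -- lower bound for the product
  have hWlow : Real.exp (-(2 * r * C0)) / Real.log X ^ (2 * r) ≤ W := by
    have hlX : 0 < Real.log X := Real.log_pos (by linarith)
    obtain ⟨y, hy⟩ : ∃ y, y = ⌊(X : ℝ) ^ κ⌋₊ := ⟨_, rfl⟩
    have hy3 : 3 ≤ y := by
      rw [hy]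
      apply Nat.le_floor
      push_cast
      have : (0 : ℝ) ≤ b := Nat.cast_nonneg _
      linarith
    have hyX : (y : ℝ) ≤ X := by
      rw [hy]
      refine (Nat.floor_le hy0).trans ?_
      calc (X : ℝ) ^ κ ≤ (X : ℝ) ^ (1 : ℝ) := Real.rpow_le_rpow_of_exponent_le (by linarith) hκ1
        _ = X := Real.rpow_one _
    have hy3r : (3 : ℝ) ≤ y := by exact_mod_cast hy3
    have hly : 0 < Real.log y := Real.log_pos (by linarith)
    have h1 : ∑ p ∈ Pr b y, 1 / (p : ℝ) ≤ Real.log (Real.log y) + C0 := by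
      have h2 := (abs_le.1 (hC0 y hy3)).2
      rw [← Pr_zero] at h2
      have h3 : ∑ p ∈ Pr b y, 1 / (p : ℝ) ≤ ∑ p ∈ Pr 0 y, 1 / (p : ℝ) := by
        apply sum_le_sum_of_subset_of_nonneg
        · intro p hp
          have hp' := mem_filter.1 hp
          have h1 := mem_Ioc.1 hp'.1
          exact mem_filter.2 ⟨mem_Ioc.2 ⟨by omega, h1.2⟩, hp'.2⟩
        · intro p _ _
          positivity
      linarith
    have h2 : Real.exp (-(2 * (r * ∑ p ∈ Pr b y, 1 / (p : ℝ)))) ≤ W := by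
      rw [hW, ← hy]
      unfold VV
      rw [mul_sum, mul_sum, ← sum_neg_distrib, Real.exp_sum]
      apply Finset.prod_le_prod
      · intro p _
        positivity
      · intro p hp
        have hp' := mem_filter.1 hp
        have h1 := mem_Ioc.1 hp'.1
        have hp0 : (0 : ℝ) < p := by exact_mod_cast hp'.2.pos
        have hpx : (p : ℝ) ≤ (X : ℝ) ^ κ := by
          have := h1.2
          rw [hy] at this
          exact (Nat.le_floor_iff hy0).1 this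
        have h3 : ((Z p).card : ℝ) ≤ r := by exact_mod_cast (hZ p hp'.2 hpx).1
        have h4 : (r : ℝ) / p ≤ 1 / 2 := by
          rw [div_le_div_iff₀ hp0 (by norm_num)]
          have : 2 * r ≤ p := by omega
          have : ((2 * r : ℕ) : ℝ) ≤ p := by exact_mod_cast this
          push_cast at this
          linarith
        have h5 := one_sub_ge (x := (r : ℝ) / p) (by positivity) h4
        have h6 : (r : ℝ) * (1 / (p : ℝ)) = r / p := by ring
        rw [h6]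
        have h7 : ((Z p).card : ℝ) / p ≤ r / p := div_le_div_of_nonneg_right h3 hp0.le
        linarith
    refine le_trans ?_ h2
    have h3 : Real.exp (-(2 * r * C0)) / Real.log X ^ (2 * r) ≤
        Real.exp (-(2 * r * C0)) / Real.log y ^ (2 * r) := by
      apply div_le_div_of_nonneg_left (Real.exp_pos _).le (by positivity)
      exact pow_le_pow_left₀ hly.le (Real.log_le_log (by linarith) hyX) _
    refine h3.trans ?_
    have h4 : Real.exp (-(2 * r * C0)) / Real.log y ^ (2 * r) =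
        Real.exp (-(2 * (r * (Real.log (Real.log y) + C0)))) := by
      have h5 : Real.log y ^ (2 * r) = Real.exp (2 * r * Real.log (Real.log y)) := by
        rw [← Real.rpow_natCast, Real.rpow_def_of_pos hly]
        congr 1
        push_cast
        ring
      rw [h5, ← Real.exp_sub]
      congr 1
      ring
    rw [h4]
    apply Real.exp_le_exp.2
    have : (0 : ℝ) ≤ r := Nat.cast_nonneg _
    nlinarith [mul_le_mul_of_nonneg_left h1 this]
  have hWpos : 0 < W := VV_pos hZ hy0 b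
  -- the error term
  have hYr : ((2 : ℝ) ^ 2 ^ J) ^ (C * b) ≤ (X : ℝ) ^ (1 / 2 : ℝ) := by
    rw [← Real.sqrt_eq_rpow]
    apply Real.le_sqrt_of_sq_le
    rw [← pow_mul]
    have : (((2 ^ 2 ^ J) ^ (2 * (C * b)) : ℕ) : ℝ) ≤ X := by exact_mod_cast hJlow
    push_cast at this
    rw [mul_comm (C * b) 2]
    exact this
  have herr : (X : ℝ) ^ (1 / 2 : ℝ) ≤ X / D * W / 4 := by
    have h1 := hX2 X g2
    have hs : 0 < (X : ℝ) ^ (1 / 2 : ℝ) := by positivity
    have hlX : 0 < Real.log X := Real.log_pos (by linarith)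
    have hlp : 0 < Real.log X ^ (2 * r) := by positivity
    rw [div_le_iff₀ hs, hE] at h1
    -- `log ^ (2r) ≤ exp(..)/(4D) * sqrt X`
    have h2 : (X : ℝ) = (X : ℝ) ^ (1 / 2 : ℝ) * (X : ℝ) ^ (1 / 2 : ℝ) := by
      rw [← Real.rpow_add hX0]
      norm_num
    have h3 : 1 ≤ Real.exp (-(2 * r * C0)) / (4 * D) * (X : ℝ) ^ (1 / 2 : ℝ) / Real.log X ^ (2 * r) := by
      rw [le_div_iff₀ hlp]
      linarith
    calc (X : ℝ) ^ (1 / 2 : ℝ) = (X : ℝ) ^ (1 / 2 : ℝ) * 1 := (mul_one _).symm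
      _ ≤ (X : ℝ) ^ (1 / 2 : ℝ) *
          (Real.exp (-(2 * r * C0)) / (4 * D) * (X : ℝ) ^ (1 / 2 : ℝ) / Real.log X ^ (2 * r)) :=
          mul_le_mul_of_nonneg_left h3 hs.le
      _ = ((X : ℝ) ^ (1 / 2 : ℝ) * (X : ℝ) ^ (1 / 2 : ℝ)) / D *
          (Real.exp (-(2 * r * C0)) / Real.log X ^ (2 * r)) / 4 := by
          field_simp
      _ = X / D * (Real.exp (-(2 * r * C0)) / Real.log X ^ (2 * r)) / 4 := by rw [← h2]
      _ ≤ X / D * W / 4 := by
          apply div_le_div_of_nonneg_right _ (by norm_num)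
          exact mul_le_mul_of_nonneg_left hWlow (by positivity)
  have hhalf : (1 / 2 : ℝ) ^ b ≤ 1 / 4 := by
    calc (1 / 2 : ℝ) ^ b ≤ (1 / 2 : ℝ) ^ 2 := pow_le_pow_of_le_one (by norm_num) (by norm_num) hb2
      _ = 1 / 4 := by norm_num
  have hXDW : 0 < X / D * W := by positivity
  have hVV : VV Z 0 ⌊(X : ℝ) ^ κ⌋₊ ≤ W := VV_split hZ hy0 b
  have hfin2 : 1 / (2 * D) * (X * VV Z 0 ⌊(X : ℝ) ^ κ⌋₊) ≤ X / D * W / 2 := by
    calc 1 / (2 * D) * (X * VV Z 0 ⌊(X : ℝ) ^ κ⌋₊) ≤ 1 / (2 * D) * (X * W) := by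
          apply mul_le_mul_of_nonneg_left _ (by positivity)
          exact mul_le_mul_of_nonneg_left hVV hX0.le
      _ = X / D * W / 2 := by field_simp
  have hq : (1 / 2 : ℝ) ^ b * (X / D * W) ≤ 1 / 4 * (X / D * W) :=
    mul_le_mul_of_nonneg_right hhalf hXDW.le
  have hN : ∀ N : ℝ, |N - X / D * W| ≤ (1 / 2) ^ b * (X / D * W) + ((2 : ℝ) ^ 2 ^ J) ^ (C * b) →
      X / D * W / 2 ≤ N := by
    intro N hN
    have := (abs_le.1 hN).1
    linarith
  refine hfin2.trans ((hN _ hmain).trans ?_)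
  rw [Nat.cast_le]
  apply card_le_card
  intro x hx'
  have hx := (@Finset.mem_filter _ _ (_) _ _).1 hx'
  refine Finset.mem_filter.2 ⟨hx.1, ?_⟩
  intro p hp hpx
  by_cases hpb : p ≤ b
  · have hpP : p ∈ Pr 0 b := mem_filter.2 ⟨mem_Ioc.2 ⟨hp.pos, hpb⟩, hp⟩
    have hpD : p ∣ D := dvd_prod_of_mem _ hpP
    have h1 : x % p = a % p := by
      have h2 : x ≡ a [MOD D] := hx.2.1
      exact h2.of_dvd hpD
    rw [h1]
    exact ha p hpP
  · have h1 : p ∈ Pr b Y := by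
      refine mem_filter.2 ⟨mem_Ioc.2 ⟨by omega, ?_⟩, hp⟩
      have : (p : ℝ) ≤ Y := hpx.trans hκY
      exact_mod_cast this
    have h2 := hx.2.2 p h1
    rwa [hZ' p, if_pos hpx] at h2

end Pool.Agent.Y987.SZ
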