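import Pool.Agent.Y987.SZ.SingP

set_option autoImplicit false

/-! # The singular series of a pair (helper987) -/

namespace Pool.Agent.Y987.SZ

open Finset Filter
open Pool.Agent.Y843.HS (Pr VV)

/-- `∏ (p - 1) / (p - 2)` over the odd prime divisors of `d` -/
noncomputable def Sd (d : ℕ) : ℝ :=
  ∏ p ∈ d.primeFactors.filter (fun p : ℕ => 2 < p), (((p : ℝ) - 1) / ((p : ℝ) - 2))

lemma nu_pair_dvd {d p : ℕ} (h : p ∣ d) (s : ℤ) : nuD ({0, s * d} : Finset ℤ) p = 1 := by
  unfold nuD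
  have h1 : (s * d) % (p : ℤ) = 0 := by
    apply Int.emod_eq_zero_of_dvd
    exact Dvd.dvd.mul_left (Int.natCast_dvd_natCast.2 h) s
  rw [image_insert, image_singleton, h1, Int.zero_emod]
  simp

lemma nu_pair_not {d p : ℕ} (h : ¬ p ∣ d) {s : ℤ} (hs : s = 1 ∨ s = -1) :
    nuD ({0, s * d} : Finset ℤ) p = 2 := by
  unfold nuD
  have h1 : ¬ (p : ℤ) ∣ s * d := by
    rcases hs with rfl | rfl
    · rw [one_mul, Int.natCast_dvd_natCast]
      exact h
    · rw [neg_one_mul, dvd_neg, Int.natCast_dvd_natCast]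
      exact h
  rw [image_insert, image_singleton, Int.zero_emod]
  apply card_pair
  intro h2
  exact h1 (Int.dvd_of_emod_eq_zero h2.symm)

lemma prod_odd (y : ℕ) : (1 / 2 : ℝ) ≤ ∏ p ∈ (Pr 0 y).filter (fun p => 2 < p), (1 - 1 / ((p : ℝ) - 1) ^ 2) := by
  rcases Nat.lt_or_ge y 1 with hy | hy
  · have : (Pr 0 y).filter (fun p => 2 < p) = ∅ := by
      rw [filter_eq_empty_iff]
      intro p hp
      have := (mem_Ioc.1 (mem_filter.1 hp).1).2
      omega
    rw [this, prod_empty]
    norm_num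
  have h1 := prod_sq y hy
  have hy0 : (0 : ℝ) < y := by exact_mod_cast hy
  have h2 : (1 / 2 : ℝ) ≤ ((y : ℝ) + 1) / (2 * y) := by
    rw [div_le_div_iff₀ (by norm_num) (by positivity)]
    linarith
  refine h2.trans (h1.trans ?_)
  have e1 : ∏ p ∈ (Pr 0 y).filter (fun p : ℕ => 2 < p), (1 - 1 / ((p : ℝ) - 1) ^ 2) =
      ∏ n ∈ ((Pr 0 y).filter (fun p : ℕ => 2 < p)).image (fun p : ℕ => p - 1), (1 - 1 / (n : ℝ) ^ 2) := by
    rw [prod_image]
    · apply prod_congr rfl
      intro p hp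
      have h3 := (mem_filter.1 hp).2
      rw [Nat.cast_sub (by omega), Nat.cast_one]
    · intro a ha b hb hab
      have h3 := (mem_filter.1 ha).2
      have h4 := (mem_filter.1 hb).2
      have h5 : a - 1 = b - 1 := hab
      omega
  rw [e1]
  have hsub : ((Pr 0 y).filter (fun p : ℕ => 2 < p)).image (fun p : ℕ => p - 1) ⊆ Ioc 1 y := by
    intro n hn
    rw [mem_image] at hn
    obtain ⟨p, hp, rfl⟩ := hn
    have h3 := (mem_filter.1 hp).2
    have h4 := (mem_Ioc.1 (mem_filter.1 (mem_filter.1 hp).1).1).2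
    rw [mem_Ioc]
    omega
  rw [← prod_sdiff hsub]
  have hb : ∀ k ∈ Ioc 1 y, 0 ≤ 1 - 1 / (k : ℝ) ^ 2 ∧ 1 - 1 / (k : ℝ) ^ 2 ≤ 1 := by
    intro k hk
    have hk1 : (1 : ℝ) < k := by exact_mod_cast (mem_Ioc.1 hk).1
    have h3 : 1 / (k : ℝ) ^ 2 ≤ 1 := by
      rw [div_le_one (by positivity)]
      nlinarith
    have h4 : 0 ≤ 1 / (k : ℝ) ^ 2 := by positivity
    constructor <;> linarith
  calc _ ≤ 1 * ∏ n ∈ ((Pr 0 y).filter (fun p : ℕ => 2 < p)).image (fun p : ℕ => p - 1), (1 - 1 / (n : ℝ) ^ 2) := by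
        apply mul_le_mul_of_nonneg_right
        · exact prod_le_one (fun p hp => (hb p (Finset.mem_sdiff.1 hp).1).1)
            (fun p hp => (hb p (Finset.mem_sdiff.1 hp).1).2)
        · exact prod_nonneg (fun p hp => (hb p (hsub hp)).1)
    _ = _ := one_mul _

/-- the singular series of `{0, ± d}`, `d` even -/
theorem pair_SS : ∃ c : ℝ, 0 < c ∧ ∀ d : ℕ, 0 < d → Even d → ∀ s : ℤ, s = 1 ∨ s = -1 →
    ({0, s * d} : Finset ℤ).card = 2 ∧ (∀ p : ℕ, p.Prime → nuD ({0, s * d} : Finset ℤ) p < p) ∧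
    c * Sd d ≤ SS {0, s * d} ∧ SS {0, s * d} ≤ 2 * Sd d := by
  refine ⟨Real.exp (-((2 : ℕ) ^ 2 * sg)), Real.exp_pos _, ?_⟩
  intro d hd hev s hs
  have hcard : ({0, s * d} : Finset ℤ).card = 2 := by
    apply card_pair
    intro h
    rcases hs with rfl | rfl
    · rw [one_mul] at h
      omega
    · rw [neg_one_mul] at h
      omega
  have hν : ∀ p : ℕ, p.Prime → nuD ({0, s * d} : Finset ℤ) p < p := by
    intro p hp
    by_cases h : p ∣ d
    · rw [nu_pair_dvd h]
      exact hp.one_lt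
    · rw [nu_pair_not h hs]
      have : p ≠ 2 := by
        rintro rfl
        exact h hev.two_dvd
      have := hp.two_le
      omega
  refine ⟨hcard, hν, ?_⟩
  obtain ⟨y, hy⟩ : ∃ y, y = max d 4 := ⟨_, rfl⟩
  have hyd : d ≤ y := by rw [hy]; exact le_max_left _ _
  have hy4 : 4 ≤ y := by rw [hy]; exact le_max_right _ _
  obtain ⟨_, h1, h2⟩ := sing (k := 2) (ν := nuD ({0, s * d} : Finset ℤ)) (y := y) (T := 0) (E := ∅)
    (by omega)
    (fun p _ _ => by
      have := nuD_le ({0, s * d} : Finset ℤ) p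
      rw [hcard] at this
      exact this)
    (fun p hp _ => hν p hp)
    (fun p hp hyp hne => by
      exfalso
      apply hne
      apply nu_pair_not _ hs
      intro h
      have := Nat.le_of_dvd hd h
      omega) (by simp)
  have hSS : SS {0, s * d} = ∏' p : Nat.Primes, sf 2 (nuD ({0, s * d} : Finset ℤ)) p := by
    unfold SS
    rw [hcard]
  rw [← hSS] at h1 h2
  -- the truncated product
  have hP : ∏ p ∈ Pr 0 y, sf 2 (nuD ({0, s * d} : Finset ℤ)) p =
      2 * (∏ p ∈ (Pr 0 y).filter (fun p => 2 < p), (1 - 1 / ((p : ℝ) - 1) ^ 2)) * Sd d := by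
    have e1 : ∏ p ∈ Pr 0 y, sf 2 (nuD ({0, s * d} : Finset ℤ)) p =
        ∏ p ∈ Pr 0 y, ((if p = 2 then 2 else 1) * ((if 2 < p then (1 - 1 / ((p : ℝ) - 1) ^ 2) else 1) *
          (if 2 < p ∧ p ∣ d then (((p : ℝ) - 1) / ((p : ℝ) - 2)) else 1))) := by
      apply prod_congr rfl
      intro p hp
      have hp' := (mem_filter.1 hp).2
      by_cases h : p = 2
      · subst h
        unfold sf
        rw [nu_pair_dvd hev.two_dvd]
        norm_num
      · have h3 : 2 < p := by
          have := hp'.two_le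
          omega
        have hpr : (2 : ℝ) < p := by exact_mod_cast h3
        have q1 : (p : ℝ) ≠ 0 := by linarith
        have q2 : (p : ℝ) - 1 ≠ 0 := by
          intro h
          linarith
        have q3 : (p : ℝ) - 2 ≠ 0 := by
          intro h
          linarith
        rw [if_neg h, if_pos h3, one_mul]
        by_cases h4 : p ∣ d
        · rw [if_pos ⟨h3, h4⟩]
          unfold sf
          rw [nu_pair_dvd h4]
          push_cast
          have q4 : (1 - 1 / (p : ℝ)) = ((p : ℝ) - 1) / p := by field_simp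
          rw [q4]
          field_simp
          ring
        · rw [if_neg (fun h => h4 h.2), mul_one]
          unfold sf
          rw [nu_pair_not h4 hs]
          push_cast
          have q4 : (1 - 1 / (p : ℝ)) = ((p : ℝ) - 1) / p := by field_simp
          have q5 : (1 - 2 / (p : ℝ)) = ((p : ℝ) - 2) / p := by field_simp
          rw [q4, q5]
          field_simp
          ring
    rw [e1, prod_mul_distrib, prod_mul_distrib, ← mul_assoc]
    congr 1
    · congr 1
      · have h2m : 2 ∈ Pr 0 y := mem_filter.2 ⟨mem_Ioc.2 ⟨by norm_num, by omega⟩, Nat.prime_two⟩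
        rw [prod_ite_eq' (Pr 0 y) 2 (fun _ => (2 : ℝ)), if_pos h2m]
      · rw [prod_filter]
    · unfold Sd
      rw [← prod_filter]
      apply prod_congr _ (fun _ _ => rfl)
      ext p
      rw [mem_filter, mem_filter, Nat.mem_primeFactors]
      constructor
      · rintro ⟨h3, h4, h5⟩
        exact ⟨⟨(mem_filter.1 h3).2, h5, hd.ne'⟩, h4⟩
      · rintro ⟨⟨h3, h4, _⟩, h5⟩
        refine ⟨mem_filter.2 ⟨mem_Ioc.2 ⟨h3.pos, (Nat.le_of_dvd hd h4).trans hyd⟩, h3⟩, h5, h4⟩
  have hSd : 0 ≤ Sd d := by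
    unfold Sd
    apply prod_nonneg
    intro p hp
    have h3 : (2 : ℝ) < p := by exact_mod_cast (mem_filter.1 hp).2
    apply div_nonneg <;> linarith
  have hlo := prod_odd y
  have hup : ∏ p ∈ (Pr 0 y).filter (fun p => 2 < p), (1 - 1 / ((p : ℝ) - 1) ^ 2) ≤ 1 := by
    apply prod_le_one
    · intro p hp
      have h3 : (3 : ℝ) ≤ p := by exact_mod_cast (mem_filter.1 hp).2
      have h4 : 1 / ((p : ℝ) - 1) ^ 2 ≤ 1 := by
        rw [div_le_one (by nlinarith)]
        nlinarith
      linarith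
    · intro p hp
      have : 0 ≤ 1 / ((p : ℝ) - 1) ^ 2 := by positivity
      linarith
  rw [hP] at h1 h2
  constructor
  · refine le_trans ?_ h1
    apply mul_le_mul_of_nonneg_left _ (Real.exp_pos _).le
    have : 1 ≤ 2 * ∏ p ∈ (Pr 0 y).filter (fun p => 2 < p), (1 - 1 / ((p : ℝ) - 1) ^ 2) := by linarith
    nlinarith
  · refine h2.trans ?_
    rw [pow_zero, one_mul]
    apply mul_le_mul_of_nonneg_right _ hSd
    linarith

end Pool.Agent.Y987.SZ
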