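import Pool.Agent.Y987.SZ.Low
import Pool.Agent.Y987.SZ.Lin

set_option autoImplicit false

/-!
# Sifted values of periodic functions: count, progressions, hereditary progressions
-/

namespace Pool.Agent.Y987.SZ.PolyU

open Finset Filter
open Pool.Agent.Y987.SZ
open Pool.Agent.Y843.HS (Pr VV)

/-- `0 < a ≤ X`, the values `f e a`, `e ∈ E`, have no prime factor `≤ y` -/
def RoughF (E : Finset ℤ) (f : ℤ → ℕ → ℤ) (X : ℕ) (y : ℝ) (a : ℕ) : Prop :=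
  0 < a ∧ a ≤ X ∧ ∀ e ∈ E, ∀ p : ℕ, p.Prime → (p : ℤ) ∣ f e a → y < (p : ℝ)

open Classical in
/-- the classes -/
noncomputable def ZF (E : Finset ℤ) (f : ℤ → ℕ → ℤ) (p : ℕ) : Finset ℕ :=
  (range p).filter (fun c => ∃ e ∈ E, (p : ℤ) ∣ f e c)

/-- periodic modulo every prime -/
def Per (E : Finset ℤ) (f : ℤ → ℕ → ℤ) : Prop :=
  ∀ e ∈ E, ∀ p a : ℕ, p.Prime → ((p : ℤ) ∣ f e a ↔ (p : ℤ) ∣ f e (a % p))

/-- `m` is a term of a progression of `k` terms of `S` with a difference `d`, `1 ≤ d ≤ L`. -/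
def InP (k : ℕ) (L : ℝ) (S : Set ℕ) (m : ℕ) : Prop :=
  ∃ a d : ℕ, 1 ≤ d ∧ (d : ℝ) ≤ L ∧ (∀ j < k, a + j * d ∈ S) ∧ ∃ j < k, m = a + j * d

lemma avoid_iff {E : Finset ℤ} {f : ℤ → ℕ → ℤ} (hper : Per E f) {X a : ℕ} {y : ℝ} :
    RoughF E f X y a ↔ (0 < a ∧ a ≤ X ∧ Avoid y (ZF E f) a) := by
  classical
  constructor
  · rintro ⟨h1, h2, h3⟩
    refine ⟨h1, h2, ?_⟩
    intro p hp hpy hmem
    obtain ⟨e, he, hd⟩ := (mem_filter.1 hmem).2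
    have := h3 e he p hp ((hper e he p a hp).2 hd)
    linarith
  · rintro ⟨h1, h2, h3⟩
    refine ⟨h1, h2, ?_⟩
    intro e he p hp hd
    by_contra hcon
    push Not at hcon
    exact h3 p hp hcon (mem_filter.2 ⟨mem_range.2 (Nat.mod_lt _ hp.pos), e, he,
      (hper e he p a hp).1 hd⟩)

lemma rough_fin (E : Finset ℤ) (f : ℤ → ℕ → ℤ) (X : ℕ) (y : ℝ) (S : Set ℕ)
    (hS : ∀ m ∈ S, RoughF E f X y m) : S.Finite :=
  (Set.finite_Icc 0 X).subset (fun m hm => ⟨Nat.zero_le _, (hS m hm).2.1⟩)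

lemma adm_of {K : ℕ} {E : Finset ℤ} {f : ℤ → ℕ → ℤ}
    (h : ∀ p : ℕ, p.Prime → (ZF E f p).card ≤ K ∧ (ZF E f p).card < p) (y : ℝ) :
    Adm K y (ZF E f) := by
  classical
  intro p hp _
  exact ⟨(h p hp).1, (h p hp).2, fun c hc => mem_range.1 (mem_filter.1 hc).1⟩

lemma key (K k : ℕ) (κ ε : ℝ) (hκ : 0 < κ) (hε : 0 < ε) : ∃ B n₀ : ℕ, ∀ X : ℕ, n₀ ≤ X →
    ∀ (E : Finset ℤ) (f : ℤ → ℕ → ℤ), Per E f →
    (∀ p : ℕ, p.Prime → (ZF E f p).card ≤ K ∧ (ZF E f p).card < p) →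
    ∀ S : Set ℕ, (∀ m ∈ S, RoughF E f X ((X : ℝ) ^ κ) m) →
      ({m ∈ S | ¬ InP (k + 1) (Real.log X ^ B) S m}.ncard : ℝ) ≤
        ε * (X * VV (ZF E f) 0 ⌊(X : ℝ) ^ κ⌋₊) := by
  classical
  obtain ⟨B, X₁, h⟩ := her (k + 1) K (by omega) κ ε hκ hε
  refine ⟨B, X₁, ?_⟩
  intro X hX E f hper hadm S hS
  have hSfin : S.Finite := rough_fin E f X _ S hS
  have h1 := h X 0 hX (ZF E f) (adm_of hadm _) hSfin.toFinset
    (by
      intro m hm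
      rw [Set.Finite.mem_toFinset] at hm
      have := (hS m hm)
      rw [Finset.mem_Ioc]
      exact ⟨this.1, by rw [zero_add]; exact this.2.1⟩)
    (by
      intro m hm
      rw [Set.Finite.mem_toFinset] at hm
      exact ((avoid_iff hper).1 (hS m hm)).2.2)
  refine le_trans ?_ h1
  rw [Nat.cast_le, ← Set.ncard_coe_finset]
  apply Set.ncard_le_ncard
  · intro m hm
    rw [mem_coe, mem_filter]
    refine ⟨(Set.Finite.mem_toFinset _).2 hm.1, ?_⟩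
    intro hAP
    apply hm.2
    obtain ⟨a, d, i1, i2, i3, i4⟩ := hAP
    exact ⟨a, d, i1, i2, fun j hj => (Set.Finite.mem_toFinset _).1 (i3 j hj), i4⟩
  · exact Finset.finite_toSet _

lemma count (K : ℕ) : ∃ (κ c : ℝ), 0 < κ ∧ 0 < c ∧ ∃ n₀ : ℕ, ∀ X : ℕ, n₀ ≤ X →
    ∀ (E : Finset ℤ) (f : ℤ → ℕ → ℤ), Per E f →
    (∀ p : ℕ, p.Prime → (ZF E f p).card ≤ K ∧ (ZF E f p).card < p) →
    c * (X * VV (ZF E f) 0 ⌊(X : ℝ) ^ κ⌋₊) ≤ ({m | RoughF E f X ((X : ℝ) ^ κ) m}.ncard : ℝ) ∧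
      0 < VV (ZF E f) 0 ⌊(X : ℝ) ^ κ⌋₊ := by
  classical
  obtain ⟨κ, c, X₀, hκ0, hκ1, hc, h⟩ := low K
  refine ⟨κ, c, hκ0, hc, X₀, ?_⟩
  intro X hX E f hper hadm
  refine ⟨?_, VV_pos (adm_of hadm _) (by positivity) 0⟩
  refine (h X 0 hX (ZF E f) (adm_of hadm _)).trans ?_
  rw [Nat.cast_le, ← Set.ncard_coe_finset]
  apply Set.ncard_le_ncard
  · intro m hm
    rw [mem_coe, mem_filter, mem_Ioc, zero_add] at hm
    exact (avoid_iff hper).2 ⟨hm.1.1, hm.1.2, hm.2⟩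
  · exact rough_fin E f X _ _ (fun m hm => hm)

/-- the number of prime factors -/
lemma len_le {m : ℕ} {y : ℝ} (hy : 1 < y) (hm0 : m ≠ 0) {r : ℕ} (hm : (m : ℝ) < y ^ (r + 1))
    (hp : ∀ p : ℕ, p.Prime → p ∣ m → y < p) : m.primeFactorsList.length ≤ r := by
  by_contra hcon
  push Not at hcon
  have h2 : ∀ l : List ℕ, (∀ p ∈ l, y < p) → y ^ l.length ≤ (l.prod : ℕ) := by
    intro l
    induction l with
    | nil => intro _; simp
    | cons a l ih =>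
      intro h
      have i1 := ih (fun p hp => h p (List.mem_cons_of_mem _ hp))
      have i2 := h a List.mem_cons_self
      rw [List.length_cons, List.prod_cons, pow_succ, mul_comm, Nat.cast_mul]
      exact mul_le_mul i2.le i1 (by positivity) (by positivity)
  have h3 := h2 m.primeFactorsList (fun p hpm =>
    hp p (Nat.prime_of_mem_primeFactorsList hpm) (Nat.dvd_of_mem_primeFactorsList hpm))
  rw [Nat.prod_primeFactorsList hm0] at h3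
  have h4 : y ^ (r + 1) ≤ y ^ m.primeFactorsList.length := pow_le_pow_right₀ hy.le (by omega)
  linarith

/-- **Main statement of this file.** -/
theorem main (K : ℕ) : ∃ (κ₀ c : ℝ) (r : ℕ), 0 < κ₀ ∧ 0 < c ∧ ∀ k : ℕ, ∀ κ ε : ℝ, 0 < κ → 0 < ε →
    ∃ B X₀ : ℕ, ∀ X : ℕ, X₀ ≤ X → ∀ (E : Finset ℤ) (f : ℤ → ℕ → ℤ), Per E f →
    (∀ p : ℕ, p.Prime → (ZF E f p).card ≤ K ∧ (ZF E f p).card < p) →
    (∀ m : ℤ, |m| ≤ (X : ℤ) ^ 3 → (∀ p : ℕ, p.Prime → (p : ℤ) ∣ m → (X : ℝ) ^ κ₀ < p) →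
      m.natAbs.primeFactorsList.length ≤ r) ∧
    c * (X * VV (ZF E f) 0 ⌊(X : ℝ) ^ κ₀⌋₊) ≤ ({m | RoughF E f X ((X : ℝ) ^ κ₀) m}.ncard : ℝ) ∧
    (∃ a d : ℕ, 1 ≤ d ∧ (d : ℝ) ≤ Real.log X ^ B ∧
        ∀ j < k, RoughF E f X ((X : ℝ) ^ κ₀) (a + j * d)) ∧
      ∀ S : Set ℕ, (∀ m ∈ S, RoughF E f X ((X : ℝ) ^ κ) m) →
        ({m ∈ S | ¬ InP (k + 1) (Real.log X ^ B) S m}.ncard : ℝ) ≤
          ε * (X * VV (ZF E f) 0 ⌊(X : ℝ) ^ κ⌋₊) := by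
  classical
  obtain ⟨κ₀, c, hκ₀, hc, n₁, hn₁⟩ := count K
  obtain ⟨r, hr⟩ := exists_nat_gt (3 / κ₀)
  refine ⟨κ₀, c, r, hκ₀, hc, ?_⟩
  intro k κ ε hκ hε
  obtain ⟨B₁, n₂, h₂⟩ := key K k κ ε hκ hε
  obtain ⟨B₂, n₃, h₃⟩ := key K k κ₀ (c / 2) hκ₀ (by positivity)
  refine ⟨max B₁ B₂, max (max n₁ 3) (max n₂ n₃), ?_⟩
  intro n hn E f hper hadm
  have g1 : n₁ ≤ n := (le_max_left _ _).trans ((le_max_left _ _).trans hn)
  have g0 : 3 ≤ n := (le_max_right _ _).trans ((le_max_left _ _).trans hn)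
  have g2 : n₂ ≤ n := (le_max_left _ _).trans ((le_max_right _ _).trans hn)
  have g3 : n₃ ≤ n := (le_max_right _ _).trans ((le_max_right _ _).trans hn)
  have hnr : (3 : ℝ) ≤ n := by exact_mod_cast g0
  have hlog1 : 1 ≤ Real.log n := by
    rw [Real.le_log_iff_exp_le (by linarith)]
    have := Real.exp_one_lt_d9
    linarith
  have hB : ∀ B, B ≤ max B₁ B₂ → Real.log n ^ B ≤ Real.log n ^ max B₁ B₂ :=
    fun B hB => pow_le_pow_right₀ hlog1 hB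
  obtain ⟨c1, hVpos⟩ := hn₁ n g1 E f hper hadm
  have hy1 : (1 : ℝ) < (n : ℝ) ^ κ₀ := Real.one_lt_rpow (by linarith) hκ₀
  have hbig : (n : ℝ) ^ 3 < ((n : ℝ) ^ κ₀) ^ (r + 1) := by
    rw [← Real.rpow_natCast, ← Real.rpow_natCast, ← Real.rpow_mul (by linarith)]
    apply Real.rpow_lt_rpow_of_exponent_lt (by linarith)
    rw [div_lt_iff₀ hκ₀] at hr
    push_cast
    nlinarith
  refine ⟨?_, c1, ?_, ?_⟩
  · intro m hm hp
    by_cases hm0 : m = 0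
    · subst hm0
      simp
    · apply len_le hy1 (Int.natAbs_ne_zero.2 hm0) _
        (fun p hp' hd => hp p hp' (Int.natCast_dvd.2 hd))
      refine lt_of_le_of_lt ?_ hbig
      have h1 : (m.natAbs : ℤ) ≤ (n : ℤ) ^ 3 := by
        rw [Int.natCast_natAbs]
        exact hm
      exact_mod_cast h1
  · have c2 := h₃ n g3 E f hper hadm {m | RoughF E f n ((n : ℝ) ^ κ₀) m} (fun m hm => hm)
    have hpos : 0 < (n : ℝ) * VV (ZF E f) 0 ⌊(n : ℝ) ^ κ₀⌋₊ := by positivity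
    obtain ⟨m, hm, hAP⟩ : ∃ m ∈ {m | RoughF E f n ((n : ℝ) ^ κ₀) m},
        InP (k + 1) (Real.log n ^ B₂) {m | RoughF E f n ((n : ℝ) ^ κ₀) m} m := by
      by_contra hcon
      push Not at hcon
      have e1 : {m ∈ {m | RoughF E f n ((n : ℝ) ^ κ₀) m} | ¬ InP (k + 1)
          (Real.log n ^ B₂) {m | RoughF E f n ((n : ℝ) ^ κ₀) m} m} =
          {m | RoughF E f n ((n : ℝ) ^ κ₀) m} := by
        ext m
        constructor
        · intro h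
          exact h.1
        · intro h
          exact ⟨h, hcon m h⟩
      rw [e1] at c2
      have : c * ((n : ℝ) * VV (ZF E f) 0 ⌊(n : ℝ) ^ κ₀⌋₊) ≤
        c / 2 * (n * VV (ZF E f) 0 ⌊(n : ℝ) ^ κ₀⌋₊) := c1.trans c2
      nlinarith
    obtain ⟨a, d, i1, i2, i3, _⟩ := hAP
    exact ⟨a, d, i1, i2.trans (hB _ (le_max_right _ _)), fun j hj => i3 j (by omega)⟩
  · intro S hS
    refine le_trans ?_ (h₂ n g2 E f hper hadm S hS)
    rw [Nat.cast_le]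
    apply Set.ncard_le_ncard
    · intro m hm
      refine ⟨hm.1, ?_⟩
      intro hAP
      apply hm.2
      obtain ⟨a, d, i1, i2, i3⟩ := hAP
      exact ⟨a, d, i1, i2.trans (hB _ (le_max_left _ _)), i3⟩
    · exact (rough_fin E f n _ S hS).subset (fun m hm => hm.1)

end Pool.Agent.Y987.SZ.PolyU
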