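import Pool.Agent.Y987.SZ.PolyU

set_option autoImplicit false

/-!
# Sifted values of periodic functions, values up to any power
-/

namespace Pool.Agent.Y987.SZ.PolyV

open Finset Filter
open Pool.Agent.Y987.SZ
open Pool.Agent.Y987.SZ.PolyU (RoughF ZF Per InP avoid_iff rough_fin adm_of key count len_le)
open Pool.Agent.Y843.HS (Pr VV)

/-- **Main statement of this file.** -/
theorem main (K D : ℕ) : ∃ (κ₀ c : ℝ) (r : ℕ), 0 < κ₀ ∧ 0 < c ∧ ∀ k : ℕ, ∀ κ ε : ℝ, 0 < κ → 0 < ε →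
    ∃ B X₀ : ℕ, ∀ X : ℕ, X₀ ≤ X → ∀ (E : Finset ℤ) (f : ℤ → ℕ → ℤ), Per E f →
    (∀ p : ℕ, p.Prime → (ZF E f p).card ≤ K ∧ (ZF E f p).card < p) →
    (∀ m : ℤ, |m| ≤ (X : ℤ) ^ D → (∀ p : ℕ, p.Prime → (p : ℤ) ∣ m → (X : ℝ) ^ κ₀ < p) →
      m.natAbs.primeFactorsList.length ≤ r) ∧
    c * (X * VV (ZF E f) 0 ⌊(X : ℝ) ^ κ₀⌋₊) ≤ ({m | RoughF E f X ((X : ℝ) ^ κ₀) m}.ncard : ℝ) ∧
    (∃ a d : ℕ, 1 ≤ d ∧ (d : ℝ) ≤ Real.log X ^ B ∧
        ∀ j < k, RoughF E f X ((X : ℝ) ^ κ₀) (a + j * d)) ∧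
      ∀ S : Set ℕ, (∀ m ∈ S, RoughF E f X ((X : ℝ) ^ κ) m) →
        ({m ∈ S | ¬ InP (k + 1) (Real.log X ^ B) S m}.ncard : ℝ) ≤
          ε * (X * VV (ZF E f) 0 ⌊(X : ℝ) ^ κ⌋₊) := by
  classical
  obtain ⟨κ₀, c, hκ₀, hc, n₁, hn₁⟩ := count K
  obtain ⟨r, hr⟩ := exists_nat_gt ((D : ℝ) / κ₀)
  refine ⟨κ₀, c, r, hκ₀, hc, ?_⟩
  intro k κ ε hκ hε
  obtain ⟨B₁, n₂, h₂⟩ := key K k κ ε hκ hε
  obtain ⟨B₂, n₃, h₃⟩ := key K k κ₀ (c / 2) hκ₀ (by positivity)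
  refine ⟨max B₁ B₂, max (max n₁ 3) (max n₂ n₃), ?_⟩
  intro n hn E f hper hadm
  have g1 : n₁ ≤ n := (le_max_left _ _).trans ((le_max_left _ _).trans hn)
  have g0 : 3 ≤ n := (le_max_right _ _).trans ((le_max_left _ _).trans hn)
  have g2 : n₂ ≤ n := (le_max_left _ _).trans ((le_max_right _ _).trans hn)
  have g3 : n₃ ≤ n := (le_max_right _ _).trans ((le_max_right _ _).trans hn)
  have hnr : (3 : ℝ) ≤ n := by exact_mod_cast g0
  have hlog1 : 1 ≤ Real.log n := by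
    rw [Real.le_log_iff_exp_le (by linarith)]
    have := Real.exp_one_lt_d9
    linarith
  have hB : ∀ B, B ≤ max B₁ B₂ → Real.log n ^ B ≤ Real.log n ^ max B₁ B₂ :=
    fun B hB => pow_le_pow_right₀ hlog1 hB
  obtain ⟨c1, hVpos⟩ := hn₁ n g1 E f hper hadm
  have hy1 : (1 : ℝ) < (n : ℝ) ^ κ₀ := Real.one_lt_rpow (by linarith) hκ₀
  have hbig : (n : ℝ) ^ D < ((n : ℝ) ^ κ₀) ^ (r + 1) := by
    rw [← Real.rpow_natCast, ← Real.rpow_natCast, ← Real.rpow_mul (by linarith)]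
    apply Real.rpow_lt_rpow_of_exponent_lt (by linarith)
    rw [div_lt_iff₀ hκ₀] at hr
    push_cast
    nlinarith
  refine ⟨?_, c1, ?_, ?_⟩
  · intro m hm hp
    by_cases hm0 : m = 0
    · subst hm0
      simp
    · apply len_le hy1 (Int.natAbs_ne_zero.2 hm0) _
        (fun p hp' hd => hp p hp' (Int.natCast_dvd.2 hd))
      refine lt_of_le_of_lt ?_ hbig
      have h1 : (m.natAbs : ℤ) ≤ (n : ℤ) ^ D := by
        rw [Int.natCast_natAbs]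
        exact hm
      exact_mod_cast h1
  · have c2 := h₃ n g3 E f hper hadm {m | RoughF E f n ((n : ℝ) ^ κ₀) m} (fun m hm => hm)
    have hpos : 0 < (n : ℝ) * VV (ZF E f) 0 ⌊(n : ℝ) ^ κ₀⌋₊ := by positivity
    obtain ⟨m, hm, hAP⟩ : ∃ m ∈ {m | RoughF E f n ((n : ℝ) ^ κ₀) m},
        InP (k + 1) (Real.log n ^ B₂) {m | RoughF E f n ((n : ℝ) ^ κ₀) m} m := by
      by_contra hcon
      push Not at hcon
      have e1 : {m ∈ {m | RoughF E f n ((n : ℝ) ^ κ₀) m} | ¬ InP (k + 1)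
          (Real.log n ^ B₂) {m | RoughF E f n ((n : ℝ) ^ κ₀) m} m} =
          {m | RoughF E f n ((n : ℝ) ^ κ₀) m} := by
        ext m
        constructor
        · intro h
          exact h.1
        · intro h
          exact ⟨h, hcon m h⟩
      rw [e1] at c2
      have : c * ((n : ℝ) * VV (ZF E f) 0 ⌊(n : ℝ) ^ κ₀⌋₊) ≤
        c / 2 * (n * VV (ZF E f) 0 ⌊(n : ℝ) ^ κ₀⌋₊) := c1.trans c2
      nlinarith
    obtain ⟨a, d, i1, i2, i3, _⟩ := hAP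
    exact ⟨a, d, i1, i2.trans (hB _ (le_max_right _ _)), fun j hj => i3 j (by omega)⟩
  · intro S hS
    refine le_trans ?_ (h₂ n g2 E f hper hadm S hS)
    rw [Nat.cast_le]
    apply Set.ncard_le_ncard
    · intro m hm
      refine ⟨hm.1, ?_⟩
      intro hAP
      apply hm.2
      obtain ⟨a, d, i1, i2, i3⟩ := hAP
      exact ⟨a, d, i1, i2.trans (hB _ (le_max_left _ _)), i3⟩
    · exact (rough_fin E f n _ S hS).subset (fun m hm => hm.1)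

end Pool.Agent.Y987.SZ.PolyV
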