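import Pool.Agent.Y987.SZ.Forms

set_option autoImplicit false

/-! # The singular series of a finite set of integers against truncated products (helper987) -/

namespace Pool.Agent.Y987.SZ

open Finset Filter
open Pool.Agent.Y843.HS (Pr VV)

/-- the local factor of the singular series -/
noncomputable def sf (k : ℕ) (ν : ℕ → ℕ) (p : ℕ) : ℝ := (1 - (ν p : ℝ) / p) / (1 - 1 / (p : ℝ)) ^ k

lemma sf_bounds {k : ℕ} {ν : ℕ → ℕ} {p : ℕ} (hp : 2 * k ≤ p) (hp2 : 2 ≤ p) (hν : ν p ≤ k) :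
    Real.exp (-((k : ℝ) ^ 2 * (1 / (p : ℝ) ^ 2))) ≤ sf k ν p ∧ sf k ν p ≤ 2 ∧
      (ν p = k → sf k ν p ≤ 1) := by
  have hp2' : (2 : ℝ) ≤ p := by exact_mod_cast hp2
  have hp0 : (0 : ℝ) < p := by linarith
  have hu : (k : ℝ) / p ≤ 1 / 2 := by
    rw [div_le_div_iff₀ hp0 (by norm_num)]
    have : ((2 * k : ℕ) : ℝ) ≤ p := by exact_mod_cast hp
    push_cast at this
    linarith
  have h1p : 1 / (p : ℝ) ≤ 1 / 2 := one_div_le_one_div_of_le (by norm_num) hp2'
  have h1p0 : 0 < 1 / (p : ℝ) := by positivity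
  have hq : 0 < 1 - 1 / (p : ℝ) := by linarith
  have hqk : 0 < (1 - 1 / (p : ℝ)) ^ k := by positivity
  have hber : 1 - (k : ℝ) / p ≤ (1 - 1 / (p : ℝ)) ^ k := by
    have h := one_add_mul_le_pow (a := -(1 / (p : ℝ))) (by linarith) k
    have e1 : 1 + (k : ℝ) * -(1 / (p : ℝ)) = 1 - (k : ℝ) / p := by ring
    have e2 : 1 + -(1 / (p : ℝ)) = 1 - 1 / (p : ℝ) := by ring
    rw [e1, e2] at h
    exact h
  have hexp : (1 - 1 / (p : ℝ)) ^ k ≤ Real.exp (-((k : ℝ) / p)) := by
    have h5 : 1 - 1 / (p : ℝ) ≤ Real.exp (-(1 / (p : ℝ))) := by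
      have := Real.add_one_le_exp (-(1 / (p : ℝ)))
      linarith
    calc (1 - 1 / (p : ℝ)) ^ k ≤ Real.exp (-(1 / (p : ℝ))) ^ k := pow_le_pow_left₀ hq.le h5 k
      _ = Real.exp (-((k : ℝ) / p)) := by
        rw [← Real.exp_nat_mul]
        congr 1
        ring
  have h2 := one_sub_ge2 (u := (k : ℝ) / p) (by positivity) hu
  have hνk : (ν p : ℝ) / p ≤ k / p := by
    apply div_le_div_of_nonneg_right _ hp0.le
    exact_mod_cast hν
  have hν0 : 0 ≤ (ν p : ℝ) / p := by positivity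
  unfold sf
  refine ⟨?_, ?_, ?_⟩
  · rw [le_div_iff₀ hqk]
    calc Real.exp (-((k : ℝ) ^ 2 * (1 / (p : ℝ) ^ 2))) * (1 - 1 / (p : ℝ)) ^ k
        ≤ Real.exp (-((k : ℝ) ^ 2 * (1 / (p : ℝ) ^ 2))) * Real.exp (-((k : ℝ) / p)) :=
          mul_le_mul_of_nonneg_left hexp (Real.exp_pos _).le
      _ = Real.exp (-((k : ℝ) / p) - ((k : ℝ) / p) ^ 2) := by
          rw [← Real.exp_add]
          congr 1
          field_simp
          ring
      _ ≤ 1 - (k : ℝ) / p := h2
      _ ≤ _ := by linarith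
  · rw [div_le_iff₀ hqk]
    linarith
  · intro h
    rw [h, div_le_one hqk]
    exact hber

/-- the sum of the `1 / p ^ 2` -/
noncomputable def sg : ℝ := ∑' p : Nat.Primes, 1 / ((p : ℕ) : ℝ) ^ 2

lemma sg_sum : Summable (fun p : Nat.Primes => 1 / ((p : ℕ) : ℝ) ^ 2) := by
  have h : Summable (fun n : ℕ => 1 / (n : ℝ) ^ 2) :=
    Real.summable_one_div_nat_pow.2 (by norm_num)
  exact h.comp_injective Nat.Primes.coe_nat_injective

/-- the primes in a finite set -/
def toP (s : Finset ℕ) : Finset Nat.Primes := Finset.subtype Nat.Prime s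

lemma mem_toP {s : Finset ℕ} {p : Nat.Primes} : p ∈ toP s ↔ (p : ℕ) ∈ s := Finset.mem_subtype

/-- the primes up to `y` -/
def P0 (y : ℕ) : Finset Nat.Primes := toP (Pr 0 y)

lemma mem_P0 {y : ℕ} {p : Nat.Primes} : p ∈ P0 y ↔ (p : ℕ) ≤ y := by
  unfold P0
  rw [mem_toP]
  unfold Pr
  rw [mem_filter, mem_Ioc]
  constructor
  · intro h
    exact h.1.2
  · intro h
    exact ⟨⟨p.2.pos, h⟩, p.2⟩

lemma prod_P0 (y : ℕ) (f : ℕ → ℝ) : ∏ p ∈ P0 y, f p = ∏ p ∈ Pr 0 y, f p :=
  Finset.prod_subtype_of_mem (p := Nat.Prime) f (fun _ hx => (mem_filter.1 hx).2)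

/-- **the singular series is of the order of its truncation** -/
theorem sing {k : ℕ} {ν : ℕ → ℕ} {y T : ℕ} {E : Finset ℕ} (hy : 2 * k ≤ y)
    (hν : ∀ p : ℕ, p.Prime → y < p → ν p ≤ k) (hs : ∀ p : ℕ, p.Prime → p ≤ y → ν p < p)
    (hE : ∀ p : ℕ, p.Prime → y < p → ν p ≠ k → p ∈ E) (hT : E.card ≤ T) :
    Multipliable (fun p : Nat.Primes => sf k ν p) ∧
    Real.exp (-((k : ℝ) ^ 2 * sg)) * (∏ p ∈ Pr 0 y, sf k ν p) ≤ ∏' p : Nat.Primes, sf k ν p ∧
    ∏' p : Nat.Primes, sf k ν p ≤ 2 ^ T * ∏ p ∈ Pr 0 y, sf k ν p := by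
  classical
  have hbd : ∀ p : Nat.Primes, y < (p : ℕ) →
      Real.exp (-((k : ℝ) ^ 2 * (1 / ((p : ℕ) : ℝ) ^ 2))) ≤ sf k ν p ∧ sf k ν p ≤ 2 ∧
      (ν p = k → sf k ν p ≤ 1) := fun p hp =>
    sf_bounds (by omega) p.2.two_le (hν p p.2 hp)
  have hpos0 : 0 ≤ ∏ p ∈ Pr 0 y, sf k ν p := by
    apply prod_nonneg
    intro p hp
    have hp' := mem_filter.1 hp
    have h1 := hs p hp'.2 (mem_Ioc.1 hp'.1).2
    have hp0 : (0 : ℝ) < p := by exact_mod_cast hp'.2.pos
    have h2 : (ν p : ℝ) ≤ p := by exact_mod_cast h1.le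
    have h3 : (ν p : ℝ) / p ≤ 1 := by
      rw [div_le_one hp0]
      exact h2
    have h4 : 1 / (p : ℝ) ≤ 1 := by
      rw [div_le_one hp0]
      exact_mod_cast hp'.2.one_le
    unfold sf
    apply div_nonneg (by linarith)
    apply pow_nonneg
    linarith
  -- the infinite product converges
  have hmul : Multipliable (fun p : Nat.Primes => sf k ν p) := by
    have h1 : Summable (fun p : Nat.Primes => sf k ν p - 1) := by
      refine Summable.of_norm_bounded_eventually (g := fun p : Nat.Primes =>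
        (k : ℝ) ^ 2 * (1 / ((p : ℕ) : ℝ) ^ 2)) (sg_sum.mul_left _) ?_
      rw [Filter.eventually_cofinite]
      refine ((P0 y ∪ toP E : Finset Nat.Primes).finite_toSet).subset ?_
      intro p hp
      rw [mem_coe, mem_union, mem_P0, mem_toP]
      by_contra hcon
      push Not at hcon
      obtain ⟨h1, h2⟩ := hcon
      have h3 : ν p = k := by
        by_contra h
        exact h2 (hE p p.2 h1 h)
      obtain ⟨h4, _, h5⟩ := hbd p h1
      apply hp
      show ‖sf k ν p - 1‖ ≤ (k : ℝ) ^ 2 * (1 / ((p : ℕ) : ℝ) ^ 2)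
      rw [Real.norm_eq_abs, abs_le]
      have h6 := h5 h3
      have h7 := Real.add_one_le_exp (-((k : ℝ) ^ 2 * (1 / ((p : ℕ) : ℝ) ^ 2)))
      have h8 : 0 ≤ (k : ℝ) ^ 2 * (1 / ((p : ℕ) : ℝ) ^ 2) := by positivity
      constructor <;> linarith
    have h2 := Real.multipliable_one_add_of_summable h1
    refine h2.congr ?_
    intro p
    ring
  -- the finite products
  have hfin : ∀ s : Finset Nat.Primes, P0 y ⊆ s →
      Real.exp (-((k : ℝ) ^ 2 * sg)) * (∏ p ∈ Pr 0 y, sf k ν p) ≤ ∏ p ∈ s, sf k ν p ∧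
      ∏ p ∈ s, sf k ν p ≤ 2 ^ T * ∏ p ∈ Pr 0 y, sf k ν p := by
    intro s hs'
    rw [← prod_sdiff hs', prod_P0 y (fun p => sf k ν p)]
    constructor
    · apply mul_le_mul_of_nonneg_right _ hpos0
      calc Real.exp (-((k : ℝ) ^ 2 * sg))
          ≤ Real.exp (-((k : ℝ) ^ 2 * ∑ p ∈ s \ P0 y, 1 / ((p : ℕ) : ℝ) ^ 2)) := by
            apply Real.exp_le_exp.2
            apply neg_le_neg
            apply mul_le_mul_of_nonneg_left _ (by positivity)
            exact sg_sum.sum_le_tsum _ (fun p _ => by positivity)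
        _ = ∏ p ∈ s \ P0 y, Real.exp (-((k : ℝ) ^ 2 * (1 / ((p : ℕ) : ℝ) ^ 2))) := by
            rw [mul_sum, ← sum_neg_distrib, Real.exp_sum]
        _ ≤ _ := by
            apply Finset.prod_le_prod
            · intro p _
              exact (Real.exp_pos _).le
            · intro p hp
              rw [Finset.mem_sdiff, mem_P0] at hp
              exact (hbd p (by omega)).1
    · apply mul_le_mul_of_nonneg_right _ hpos0
      calc ∏ p ∈ s \ P0 y, sf k ν p
          ≤ ∏ p ∈ s \ P0 y, (if (p : ℕ) ∈ E then (2 : ℝ) else 1) := by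
            apply Finset.prod_le_prod
            · intro p hp
              rw [Finset.mem_sdiff, mem_P0] at hp
              exact (Real.exp_pos _).le.trans (hbd p (by omega)).1
            · intro p hp
              rw [Finset.mem_sdiff, mem_P0] at hp
              have h1 := hbd p (by omega)
              split_ifs with h
              · exact h1.2.1
              · apply h1.2.2
                by_contra h2
                exact h (hE p p.2 (by omega) h2)
        _ = 2 ^ ((s \ P0 y).filter (fun p : Nat.Primes => (p : ℕ) ∈ E)).card := by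
            rw [prod_ite, prod_const, prod_const_one, mul_one]
        _ ≤ 2 ^ T := by
            apply pow_le_pow_right₀ (by norm_num)
            refine le_trans ?_ hT
            refine card_le_card_of_injOn (fun p : Nat.Primes => (p : ℕ)) ?_ ?_
            · intro p hp
              rw [mem_coe, mem_filter] at hp
              exact hp.2
            · intro p _ q _ h
              exact Nat.Primes.coe_nat_injective h
  have hev : ∀ᶠ s : Finset Nat.Primes in atTop, P0 y ⊆ s := eventually_ge_atTop (P0 y)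
  have hlim : Tendsto (fun s : Finset Nat.Primes => ∏ p ∈ s, sf k ν p) atTop
      (nhds (∏' p : Nat.Primes, sf k ν p)) := hmul.hasProd
  refine ⟨hmul, ?_, ?_⟩
  · exact ge_of_tendsto hlim (hev.mono fun s hs => (hfin s hs).1)
  · exact le_of_tendsto hlim (hev.mono fun s hs => (hfin s hs).2)

/-- the density of the sifted set against the singular series -/
theorem VV_sing (k T : ℕ) (κ : ℝ) (hκ : 0 < κ) (hκ1 : κ ≤ 1) : ∃ (c C : ℝ) (X₀ : ℕ), 0 < c ∧ 0 < C ∧
    ∀ X : ℕ, X₀ ≤ X → ∀ (ν : ℕ → ℕ) (E : Finset ℕ) (Z : ℕ → Finset ℕ),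
      (∀ p : ℕ, p.Prime → ν p ≤ k) → (∀ p : ℕ, p.Prime → ν p < p) →
      (∀ p : ℕ, p.Prime → (X : ℝ) ^ κ < p → ν p ≠ k → p ∈ E) → E.card ≤ T →
      (∀ p : ℕ, p.Prime → (Z p).card = ν p) →
      c * ((∏' p : Nat.Primes, sf k ν p) / Real.log X ^ k) ≤ VV Z 0 ⌊(X : ℝ) ^ κ⌋₊ ∧
      VV Z 0 ⌊(X : ℝ) ^ κ⌋₊ ≤ C * ((∏' p : Nat.Primes, sf k ν p) / Real.log X ^ k) := by
  obtain ⟨c1, C1, hc1, hC1, hm⟩ := mert
  obtain ⟨X1, hX1⟩ := log_floor κ hκ hκ1
  have ht1 : Tendsto (fun X : ℕ => (X : ℝ) ^ κ) atTop atTop :=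
    (tendsto_rpow_atTop hκ).comp tendsto_natCast_atTop_atTop
  obtain ⟨X2, hX2⟩ := (ht1.eventually_ge_atTop ((2 * k : ℕ) : ℝ)).exists_forall_of_atTop
  refine ⟨c1 ^ k / 2 ^ T, (C1 * (2 / κ)) ^ k * Real.exp ((k : ℝ) ^ 2 * sg), max X1 X2, by positivity,
    by positivity, ?_⟩
  intro X hX ν E Z hν hs hE hT hZ
  obtain ⟨h3, h4, h5, h6⟩ := hX1 X ((le_max_left _ _).trans hX)
  have hy0 : (0 : ℝ) ≤ (X : ℝ) ^ κ := by positivity
  obtain ⟨y, hy⟩ : ∃ y, y = ⌊(X : ℝ) ^ κ⌋₊ := ⟨_, rfl⟩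
  have h2k : 2 * k ≤ y := by
    rw [hy]
    exact Nat.le_floor (hX2 X ((le_max_right _ _).trans hX))
  rw [← hy] at h3 h4 h5 ⊢
  have hly : 0 < Real.log y := lt_of_lt_of_le (by positivity) h4
  obtain ⟨_, hS1, hS2⟩ := sing (k := k) (ν := ν) (y := y) (T := T) (E := E) h2k
    (fun p hp _ => hν p hp) (fun p hp _ => hs p hp)
    (fun p hp hyp hne => hE p hp (by
      rw [hy] at hyp
      exact (Nat.floor_lt hy0).1 hyp) hne) hT
  obtain ⟨S, hS⟩ : ∃ S, S = ∏' p : Nat.Primes, sf k ν p := ⟨_, rfl⟩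
  rw [← hS] at hS1 hS2 ⊢
  set P := ∏ p ∈ Pr 0 y, sf k ν p with hP
  have hbase : ∀ p ∈ Pr 0 y, 0 < 1 - 1 / (p : ℝ) := by
    intro p hp
    have hp' := mem_filter.1 hp
    have hp2 : (2 : ℝ) ≤ p := by exact_mod_cast hp'.2.two_le
    have : 1 / (p : ℝ) ≤ 1 / 2 := one_div_le_one_div_of_le (by norm_num) hp2
    linarith
  have hP0 : 0 < P := by
    rw [hP]
    apply prod_pos
    intro p hp
    have hp' := mem_filter.1 hp
    have hp0 : (0 : ℝ) < p := by exact_mod_cast hp'.2.pos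
    have h2 : (ν p : ℝ) < p := by exact_mod_cast hs p hp'.2
    have h3 : (ν p : ℝ) / p < 1 := by
      rw [div_lt_one hp0]
      exact h2
    unfold sf
    apply div_pos (by linarith)
    exact pow_pos (hbase p hp) _
  have hVV : VV Z 0 y = (∏ p ∈ Pr 0 y, (1 - 1 / (p : ℝ))) ^ k * P := by
    rw [hP, ← prod_pow, ← prod_mul_distrib]
    unfold VV
    apply prod_congr rfl
    intro p hp
    rw [hZ p (mem_filter.1 hp).2]
    unfold sf
    rw [mul_div_cancel₀]
    exact (pow_pos (hbase p hp) _).ne'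
  obtain ⟨hm1, hm2⟩ := hm y h3
  have hprod0 : 0 ≤ ∏ p ∈ Pr 0 y, (1 - 1 / (p : ℝ)) := prod_nonneg fun p hp => (hbase p hp).le
  have hm3 : ∏ p ∈ Pr 0 y, (1 - 1 / (p : ℝ)) ≤ C1 / Real.log y := by
    refine le_trans ?_ hm2
    rw [← sum_neg_distrib, Real.exp_sum]
    apply Finset.prod_le_prod
    · intro p hp
      exact (hbase p hp).le
    · intro p _
      have := Real.add_one_le_exp (-(1 / (p : ℝ)))
      linarith
  rw [hVV]
  have hS0 : 0 ≤ S := le_trans (by positivity) hS1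
  constructor
  · calc c1 ^ k / 2 ^ T * (S / Real.log X ^ k) ≤ c1 ^ k / 2 ^ T * (2 ^ T * P / Real.log X ^ k) := by
          apply mul_le_mul_of_nonneg_left _ (by positivity)
          exact div_le_div_of_nonneg_right hS2 (by positivity)
      _ = (c1 / Real.log X) ^ k * P := by
          rw [div_pow]
          field_simp
      _ ≤ (∏ p ∈ Pr 0 y, (1 - 1 / (p : ℝ))) ^ k * P := by
          apply mul_le_mul_of_nonneg_right _ hP0.le
          apply pow_le_pow_left₀ (by positivity)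
          refine le_trans ?_ hm1
          exact div_le_div_of_nonneg_left hc1.le hly h5
  · have hPS : P ≤ Real.exp ((k : ℝ) ^ 2 * sg) * S := by
      have h7 : Real.exp ((k : ℝ) ^ 2 * sg) * (Real.exp (-((k : ℝ) ^ 2 * sg)) * P) = P := by
        rw [← mul_assoc, ← Real.exp_add, add_neg_cancel, Real.exp_zero, one_mul]
      calc P = Real.exp ((k : ℝ) ^ 2 * sg) * (Real.exp (-((k : ℝ) ^ 2 * sg)) * P) := h7.symm
        _ ≤ _ := mul_le_mul_of_nonneg_left hS1 (Real.exp_pos _).le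
    calc (∏ p ∈ Pr 0 y, (1 - 1 / (p : ℝ))) ^ k * P
        ≤ (C1 * (2 / κ) / Real.log X) ^ k * (Real.exp ((k : ℝ) ^ 2 * sg) * S) := by
          apply mul_le_mul _ hPS hP0.le (by positivity)
          apply pow_le_pow_left₀ hprod0
          refine hm3.trans ?_
          rw [div_le_div_iff₀ hly h6]
          have h8 : Real.log X ≤ 2 / κ * Real.log y := by
            rw [div_mul_eq_mul_div, le_div_iff₀ hκ]
            linarith
          calc C1 * Real.log X ≤ C1 * (2 / κ * Real.log y) := mul_le_mul_of_nonneg_left h8 hC1.le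
            _ = C1 * (2 / κ) * Real.log y := by ring
      _ = _ := by
          rw [div_pow]
          ring

end Pool.Agent.Y987.SZ
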