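import Pool.Agent.Y987.SZ.Sing
import Pool.Agent.Y843.HG.Prs

set_option autoImplicit false

/-! # Primes `p` with all `p - d` rough, uniformly in the shifts `d`, with the singular series (helper987) -/

namespace Pool.Agent.Y987.SZ

open Finset Filter
open Pool.Agent.Y843.HS (Pr VV)

/-- the number of the classes modulo `q` occupied by `D` -/
def nuD (D : Finset ℤ) (q : ℕ) : ℕ := (D.image (fun d => d % (q : ℤ))).card

/-- the singular series of `D` -/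
noncomputable def SS (D : Finset ℤ) : ℝ := ∏' p : Nat.Primes, sf D.card (nuD D) p

/-- the classes of the elements of `D` -/
def ZD (D : Finset ℤ) (q : ℕ) : Finset ℕ := D.image (fun d => (d % (q : ℤ)).toNat)

/-- none of the numbers `n - d`, `d ∈ D`, has a prime factor `≤ y` -/
def RoughD (D : Finset ℤ) (y : ℝ) (n : ℕ) : Prop :=
  ∀ d ∈ D, ∀ p : ℕ, p.Prime → (p : ℝ) ≤ y → ¬ (p : ℤ) ∣ (n : ℤ) - d

lemma mem_ZD {D : Finset ℤ} {q n : ℕ} (hq : 0 < q) : n % q ∈ ZD D q ↔ ∃ d ∈ D, (q : ℤ) ∣ (n : ℤ) - d := by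
  unfold ZD
  rw [mem_image]
  have hq' : (q : ℤ) ≠ 0 := by omega
  constructor
  · rintro ⟨d, hd, h⟩
    refine ⟨d, hd, ?_⟩
    have h1 : 0 ≤ d % (q : ℤ) := Int.emod_nonneg _ hq'
    have h2 : ((n % q : ℕ) : ℤ) = d % (q : ℤ) := by
      rw [← h]
      exact Int.toNat_of_nonneg h1
    rw [Int.natCast_mod] at h2
    exact Int.dvd_of_emod_eq_zero (Int.emod_eq_emod_iff_emod_sub_eq_zero.1 h2)
  · rintro ⟨d, hd, h⟩
    refine ⟨d, hd, ?_⟩
    have h1 : (n : ℤ) % (q : ℤ) = d % (q : ℤ) :=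
      Int.emod_eq_emod_iff_emod_sub_eq_zero.2 (Int.emod_eq_zero_of_dvd h)
    rw [← h1, ← Int.natCast_mod]
    exact Int.toNat_natCast _

lemma card_ZD {D : Finset ℤ} {q : ℕ} (hq : 0 < q) : (ZD D q).card = nuD D q := by
  have hq' : (q : ℤ) ≠ 0 := by omega
  have h1 : ZD D q = (D.image (fun d => d % (q : ℤ))).image Int.toNat := by
    unfold ZD
    rw [image_image]
    rfl
  rw [h1]
  unfold nuD
  apply card_image_of_injOn
  intro a ha b hb hab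
  rw [mem_coe, mem_image] at ha hb
  obtain ⟨d, _, rfl⟩ := ha
  obtain ⟨e, _, rfl⟩ := hb
  have h2 : 0 ≤ d % (q : ℤ) := Int.emod_nonneg _ hq'
  have h3 : 0 ≤ e % (q : ℤ) := Int.emod_nonneg _ hq'
  omega

lemma ZD_lt {D : Finset ℤ} {q : ℕ} (hq : 0 < q) {c : ℕ} (hc : c ∈ ZD D q) : c < q := by
  unfold ZD at hc
  rw [mem_image] at hc
  obtain ⟨d, _, rfl⟩ := hc
  have hq' : (0 : ℤ) < q := by omega
  have h2 : 0 ≤ d % (q : ℤ) := Int.emod_nonneg _ hq'.ne'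
  have h3 : d % (q : ℤ) < q := Int.emod_lt_of_pos _ hq'
  omega

lemma nuD_le (D : Finset ℤ) (q : ℕ) : nuD D q ≤ D.card := card_image_le

/-- the prime factors larger than `y` -/
lemma card_big {m t : ℕ} {y : ℝ} (hy : 1 ≤ y) (hm0 : m ≠ 0) (hm : (m : ℝ) < y ^ (t + 1)) :
    (m.primeFactors.filter (fun p : ℕ => y < p)).card ≤ t := by
  by_contra hcon
  push Not at hcon
  have h1 : ∏ p ∈ m.primeFactors.filter (fun p : ℕ => y < p), p ∣ m :=
    (prod_dvd_prod_of_subset _ _ _ (filter_subset _ _)).trans (Nat.prod_primeFactors_dvd m)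
  have h2 : ∏ p ∈ m.primeFactors.filter (fun p : ℕ => y < p), p ≤ m := Nat.le_of_dvd (by omega) h1
  have h3 : y ^ (m.primeFactors.filter (fun p : ℕ => y < p)).card ≤
      ∏ p ∈ m.primeFactors.filter (fun p : ℕ => y < p), (p : ℝ) := by
    rw [← prod_const]
    apply Finset.prod_le_prod
    · intro p _
      linarith
    · intro p hp
      exact (mem_filter.1 hp).2.le
  have h4 : (∏ p ∈ m.primeFactors.filter (fun p : ℕ => y < p), (p : ℝ)) ≤ m := by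
    have h6 : ((∏ p ∈ m.primeFactors.filter (fun p : ℕ => y < p), p : ℕ) : ℝ) ≤ m := by
      exact_mod_cast h2
    rwa [Nat.cast_prod] at h6
  have h5 : y ^ (t + 1) ≤ y ^ (m.primeFactors.filter (fun p : ℕ => y < p)).card :=
    pow_le_pow_right₀ hy (by omega)
  linarith

open Classical in
/-- the exceptional primes -/
noncomputable def ED (D : Finset ℤ) (y : ℝ) : Finset ℕ :=
  ((D ×ˢ D).filter (fun z => z.1 ≠ z.2)).biUnion
    (fun z => ((z.1 - z.2).natAbs.primeFactors).filter (fun p : ℕ => y < p))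

lemma mem_ED {D : Finset ℤ} {y : ℝ} {p : ℕ} (hp : p.Prime) (hy : y < p) (h : nuD D p ≠ D.card) :
    p ∈ ED D y := by
  classical
  have h1 : ¬ Set.InjOn (fun d : ℤ => d % (p : ℤ)) D := by
    intro hinj
    exact h (card_image_of_injOn hinj)
  unfold Set.InjOn at h1
  push Not at h1
  obtain ⟨a, ha, b, hb, hab, hne⟩ := h1
  unfold ED
  rw [mem_biUnion]
  refine ⟨(a, b), ?_, ?_⟩
  · rw [mem_filter, mem_product]
    exact ⟨⟨ha, hb⟩, hne⟩
  · rw [mem_filter, Nat.mem_primeFactors]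
    refine ⟨⟨hp, ?_, ?_⟩, hy⟩
    · have h2 : (p : ℤ) ∣ a - b := Int.dvd_of_emod_eq_zero (Int.emod_eq_emod_iff_emod_sub_eq_zero.1 hab)
      exact Int.natCast_dvd.1 h2
    · rw [Int.natAbs_ne_zero, sub_ne_zero]
      exact hne

lemma card_ED {D : Finset ℤ} {y : ℝ} {t M : ℕ} (hy : 1 ≤ y) (hD : ∀ d ∈ D, |d| ≤ M)
    (hM : (2 * M : ℝ) < y ^ (t + 1)) : (ED D y).card ≤ D.card ^ 2 * t := by
  classical
  unfold ED
  refine card_biUnion_le.trans ?_
  calc ∑ z ∈ (D ×ˢ D).filter (fun z => z.1 ≠ z.2),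
        ((z.1 - z.2).natAbs.primeFactors.filter (fun p : ℕ => y < p)).card
      ≤ ∑ _z ∈ (D ×ˢ D).filter (fun z => z.1 ≠ z.2), t := by
        apply sum_le_sum
        intro z hz
        rw [mem_filter, mem_product] at hz
        apply card_big hy
        · rw [Int.natAbs_ne_zero, sub_ne_zero]
          exact hz.2
        · refine lt_of_le_of_lt ?_ hM
          have h1 := hD _ hz.1.1
          have h2 := hD _ hz.1.2
          have h3 : (z.1 - z.2).natAbs ≤ 2 * M := by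
            rw [abs_le] at h1 h2
            omega
          exact_mod_cast h3
    _ = ((D ×ˢ D).filter (fun z => z.1 ≠ z.2)).card * t := by rw [sum_const, smul_eq_mul]
    _ ≤ (D ×ˢ D).card * t := Nat.mul_le_mul_right _ (card_filter_le _ _)
    _ = D.card ^ 2 * t := by rw [card_product, sq]

/-- the primes `p ≤ X` with all `p - d` rough -/
noncomputable def PD (D : Finset ℤ) (X : ℕ) (y : ℝ) : Finset ℕ := by
  classical exact (Ioc 0 X).filter (fun n => n.Prime ∧ RoughD D y n)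

/-- the `n` in `(N, N + X]` with all `n - d` rough -/
noncomputable def ND (D : Finset ℤ) (N X : ℕ) (y : ℝ) : Finset ℕ := by
  classical exact (Ioc N (N + X)).filter (fun n => RoughD D y n)

lemma mem_PD {D : Finset ℤ} {X n : ℕ} {y : ℝ} : n ∈ PD D X y ↔ (0 < n ∧ n ≤ X) ∧ n.Prime ∧ RoughD D y n := by
  classical
  unfold PD
  rw [mem_filter, mem_Ioc]

lemma mem_ND {D : Finset ℤ} {N X n : ℕ} {y : ℝ} :
    n ∈ ND D N X y ↔ (N < n ∧ n ≤ N + X) ∧ RoughD D y n := by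
  classical
  unfold ND
  rw [mem_filter, mem_Ioc]

lemma RoughD.anti {D : Finset ℤ} {y y' : ℝ} {n : ℕ} (h : RoughD D y n) (hy : y' ≤ y) : RoughD D y' n :=
  fun d hd p hp hpy => h d hd p hp (hpy.trans hy)

/-- admissible sets of `k` shifts up to `M` -/
def Shifts (k M : ℕ) (D : Finset ℤ) : Prop :=
  D.card = k ∧ (∀ d ∈ D, |d| ≤ (M : ℤ)) ∧ ∀ p : ℕ, p.Prime → nuD D p < p

/-- the number of the exceptional primes -/
lemma card_ED' {κ : ℝ} (hκ : 0 < κ) (A k : ℕ) {X : ℕ} (hX : 4 ≤ X) {D : Finset ℤ}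
    (hD : Shifts k (X ^ A) D) : (ED D ((X : ℝ) ^ κ)).card ≤ k ^ 2 * ⌈((A + 2 : ℕ) : ℝ) / κ⌉₊ := by
  have hXr : (4 : ℝ) ≤ X := by exact_mod_cast hX
  have hX0 : (0 : ℝ) < X := by linarith
  have hy1 : (1 : ℝ) ≤ (X : ℝ) ^ κ := Real.one_le_rpow (by linarith) hκ.le
  rw [← hD.1]
  apply card_ED hy1 (M := X ^ A)
  · intro d hd
    exact hD.2.1 d hd
  · set T1 := ⌈((A + 2 : ℕ) : ℝ) / κ⌉₊ with hT1
    have h1 : ((X : ℝ) ^ κ) ^ (T1 + 1) = (X : ℝ) ^ (κ * ((T1 + 1 : ℕ) : ℝ)) := by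
      rw [← Real.rpow_natCast ((X : ℝ) ^ κ), ← Real.rpow_mul hX0.le]
    rw [h1]
    have h2 : ((A + 2 : ℕ) : ℝ) ≤ κ * ((T1 + 1 : ℕ) : ℝ) := by
      have h3 : ((A + 2 : ℕ) : ℝ) / κ ≤ T1 := Nat.le_ceil _
      rw [div_le_iff₀ hκ] at h3
      push_cast at h3 ⊢
      nlinarith
    calc (2 * (X ^ A : ℕ) : ℝ) < (X : ℝ) ^ (A + 2) := by
          push_cast
          rw [pow_add, mul_comm]
          apply mul_lt_mul_of_pos_left _ (by positivity)
          nlinarith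
      _ = (X : ℝ) ^ ((A + 2 : ℕ) : ℝ) := (Real.rpow_natCast _ _).symm
      _ ≤ _ := Real.rpow_le_rpow_of_exponent_le (by linarith) h2

/-- the density against the singular series, for sets of shifts -/
theorem VV_SS (k A : ℕ) (κ : ℝ) (hκ : 0 < κ) (hκ1 : κ ≤ 1) : ∃ (c C : ℝ) (X₀ : ℕ), 0 < c ∧ 0 < C ∧
    ∀ X : ℕ, X₀ ≤ X → ∀ D : Finset ℤ, Shifts k (X ^ A) D →
      c * (SS D / Real.log X ^ k) ≤ VV (ZD D) 0 ⌊(X : ℝ) ^ κ⌋₊ ∧
      VV (ZD D) 0 ⌊(X : ℝ) ^ κ⌋₊ ≤ C * (SS D / Real.log X ^ k) := by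
  obtain ⟨c, C, X1, hc, hC, h⟩ := VV_sing k (k ^ 2 * ⌈((A + 2 : ℕ) : ℝ) / κ⌉₊) κ hκ hκ1
  refine ⟨c, C, max X1 4, hc, hC, ?_⟩
  intro X hX D hD
  have h1 := h X ((le_max_left _ _).trans hX) (nuD D) (ED D ((X : ℝ) ^ κ)) (ZD D)
    (fun p _ => by
      rw [← hD.1]
      exact nuD_le D p) hD.2.2
    (fun p hp hyp hne => mem_ED hp hyp (by
      rw [hD.1]
      exact hne)) (card_ED' hκ A k ((le_max_right _ _).trans hX) hD) (fun p hp => card_ZD hp.pos)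
  have hSS : SS D = ∏' p : Nat.Primes, sf k (nuD D) p := by
    unfold SS
    rw [hD.1]
  rw [hSS]
  exact h1

lemma adm_ZD {k M : ℕ} {D : Finset ℤ} (hD : Shifts k M D) (y : ℝ) : Adm k y (ZD D) := by
  intro p hp _
  rw [card_ZD hp.pos]
  refine ⟨?_, hD.2.2 p hp, fun c hc => ZD_lt hp.pos hc⟩
  rw [← hD.1]
  exact nuD_le D p

lemma avoid_ZD {D : Finset ℤ} {y : ℝ} {n : ℕ} : Avoid y (ZD D) n ↔ RoughD D y n := by
  constructor
  · intro h d hd p hp hpy hdvd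
    exact h p hp hpy ((mem_ZD hp.pos).2 ⟨d, hd, hdvd⟩)
  · intro h p hp hpy hmem
    obtain ⟨d, hd, hdvd⟩ := (mem_ZD hp.pos).1 hmem
    exact h d hd p hp hpy hdvd

/-- **hereditary narrow progressions** -/
theorem her_SS (k A l : ℕ) (hl : 1 ≤ l) (κ ε : ℝ) (hκ : 0 < κ) (hκ1 : κ ≤ 1) (hε : 0 < ε) :
    ∃ B X₀ : ℕ, ∀ X N : ℕ, X₀ ≤ X → ∀ D : Finset ℤ, Shifts k (X ^ A) D →
      ∀ S ⊆ ND D N X ((X : ℝ) ^ κ),
        (Set.ncard {n | n ∈ S ∧ ¬ InAP l (Real.log X ^ B) S n} : ℝ) ≤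
          ε * (SS D * (X / Real.log X ^ k)) := by
  classical
  obtain ⟨c, C, X1, hc, hC, hVV⟩ := VV_SS k A κ hκ hκ1
  obtain ⟨B, X2, hher⟩ := her l k hl κ (ε / C) hκ (by positivity)
  refine ⟨B, max X1 X2, ?_⟩
  intro X N hX D hD S hS
  have h1 := hher X N ((le_max_right _ _).trans hX) (ZD D) (adm_ZD hD _) S
    (fun n hn => mem_Ioc.2 (mem_ND.1 (hS hn)).1)
    (fun n hn => avoid_ZD.2 (mem_ND.1 (hS hn)).2)
  have h2 : {n | n ∈ S ∧ ¬ InAP l (Real.log X ^ B) S n} =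
      ((S.filter (fun n => ¬ InAP l (Real.log X ^ B) S n) : Finset ℕ) : Set ℕ) := by
    ext n
    rw [mem_coe, mem_filter]
    exact Iff.rfl
  rw [h2, Set.ncard_coe_finset]
  refine h1.trans ?_
  have hX0 : (0 : ℝ) ≤ X := Nat.cast_nonneg _
  calc ε / C * (X * VV (ZD D) 0 ⌊(X : ℝ) ^ κ⌋₊)
      ≤ ε / C * (X * (C * (SS D / Real.log X ^ k))) := by
        apply mul_le_mul_of_nonneg_left _ (by positivity)
        exact mul_le_mul_of_nonneg_left (hVV X ((le_max_left _ _).trans hX) D hD).2 hX0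
    _ = _ := by field_simp

/-- **the number of the integers with rough shifts, in every interval** -/
theorem int_SS (k : ℕ) : ∃ κ₀ : ℝ, 0 < κ₀ ∧ κ₀ ≤ 1 ∧ ∀ A : ℕ, ∃ (c : ℝ) (X₀ : ℕ), 0 < c ∧
    ∀ X N : ℕ, X₀ ≤ X → ∀ D : Finset ℤ, Shifts k (X ^ A) D →
      c * (SS D * (X / Real.log X ^ k)) ≤ ((ND D N X ((X : ℝ) ^ κ₀)).card : ℝ) := by
  obtain ⟨κ, c, X1, hκ, hκ1, hc, hlow⟩ := low k
  refine ⟨κ, hκ, hκ1, ?_⟩
  intro A
  obtain ⟨c2, C2, X2, hc2, hC2, hVV⟩ := VV_SS k A κ hκ hκ1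
  refine ⟨c * c2, max X1 X2, by positivity, ?_⟩
  intro X N hX D hD
  have h1 := hlow X N ((le_max_left _ _).trans hX) (ZD D) (adm_ZD hD _)
  have hX0 : (0 : ℝ) ≤ X := Nat.cast_nonneg _
  calc c * c2 * (SS D * (X / Real.log X ^ k)) = c * (X * (c2 * (SS D / Real.log X ^ k))) := by ring
    _ ≤ c * (X * VV (ZD D) 0 ⌊(X : ℝ) ^ κ⌋₊) := by
        apply mul_le_mul_of_nonneg_left _ hc.le
        exact mul_le_mul_of_nonneg_left (hVV X ((le_max_right _ _).trans hX) D hD).1 hX0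
    _ ≤ _ := h1
    _ ≤ _ := by
        rw [Nat.cast_le]
        apply card_le_card
        intro n hn
        have hn' := (@Finset.mem_filter _ _ (_) _ _).1 hn
        exact mem_ND.2 ⟨mem_Ioc.1 hn'.1, avoid_ZD.1 hn'.2⟩

/-- **the number of the primes with rough shifts** -/
theorem primes_SS (r : ℕ) : ∃ κ₀ : ℝ, 0 < κ₀ ∧ κ₀ ≤ 1 ∧ ∀ A : ℕ, ∃ (c : ℝ) (X₀ : ℕ), 0 < c ∧
    ∀ X : ℕ, X₀ ≤ X → ∀ D : Finset ℤ, 0 ∈ D → Shifts (r + 1) (X ^ A) D →
      c * (SS D * (X / Real.log X ^ (r + 1))) ≤ ((PD D X ((X : ℝ) ^ κ₀)).card : ℝ) := by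
  obtain ⟨t, ht, c1, hc1, X1, hcount⟩ := Pool.Agent.Y843.HG.SP_count r
  have ht0 : (1 : ℝ) ≤ t := by exact_mod_cast ht
  set κ : ℝ := 1 / t with hκ
  have hκ0 : 0 < κ := by positivity
  have hκ1 : κ ≤ 1 := by
    rw [hκ, div_le_one (by positivity)]
    exact ht0
  refine ⟨κ, hκ0, hκ1, ?_⟩
  intro A
  obtain ⟨c2, C2, X2, hc2, hC2, hVV⟩ := VV_SS (r + 1) A κ hκ0 hκ1
  refine ⟨c1 * c2, max X1 X2, by positivity, ?_⟩
  intro X hX D h0D hD
  have hs1 := (hVV X ((le_max_right _ _).trans hX) D hD).1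
  have hy0 : (0 : ℝ) ≤ (X : ℝ) ^ κ := by positivity
  have hX0 : (0 : ℝ) ≤ X := Nat.cast_nonneg _
  have h0 : ∀ p : ℕ, p.Prime → 0 ∈ ZD D p := by
    intro p hp
    unfold ZD
    rw [mem_image]
    exact ⟨0, h0D, by simp⟩
  have hadm : Pool.Agent.Y843.HG.Adm r ⌊(X : ℝ) ^ (1 / (t : ℝ))⌋₊ (fun p => (ZD D p).erase 0) := by
    intro p hp
    have hp' := (mem_filter.1 hp).2
    have h1 : ((ZD D p).erase 0).card + 1 = nuD D p := by
      rw [card_erase_of_mem (h0 p hp'), card_ZD hp'.pos]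
      have h2 : 0 < (ZD D p).card := card_pos.2 ⟨0, h0 p hp'⟩
      rw [card_ZD hp'.pos] at h2
      omega
    have h2 : nuD D p ≤ r + 1 := by
      rw [← hD.1]
      exact nuD_le D p
    have h3 := hD.2.2 p hp'
    refine ⟨?_, ?_, notMem_erase 0 _, ?_⟩
    · show ((ZD D p).erase 0).card ≤ r
      omega
    · show ((ZD D p).erase 0).card + 1 < p
      omega
    intro c hc
    exact ZD_lt hp'.pos (mem_of_mem_erase hc)
  have h1 := hcount X ((le_max_left _ _).trans hX) _ hadm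
  have hZ0 : ∀ p : ℕ, p.Prime → Pool.Agent.Y843.HG.Z0 (fun p => (ZD D p).erase 0) p = ZD D p :=
    fun p hp => insert_erase (h0 p hp)
  have hVVeq : VV (Pool.Agent.Y843.HG.Z0 (fun p => (ZD D p).erase 0)) 0 ⌊(X : ℝ) ^ (1 / (t : ℝ))⌋₊ =
      VV (ZD D) 0 ⌊(X : ℝ) ^ κ⌋₊ := by
    unfold VV
    apply prod_congr rfl
    intro p hp
    rw [hZ0 p (mem_filter.1 hp).2]
  rw [hVVeq] at h1
  have h2 : Pool.Agent.Y843.HG.SP (fun p => (ZD D p).erase 0) X ⌊(X : ℝ) ^ (1 / (t : ℝ))⌋₊ ⊆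
      PD D X ((X : ℝ) ^ κ) := by
    intro n hn
    unfold Pool.Agent.Y843.HG.SP at hn
    rw [mem_filter, mem_Ioc] at hn
    rw [mem_PD]
    refine ⟨hn.1, hn.2.1, ?_⟩
    intro d hd p hp hpy hdvd
    have h3 := hn.2.2 p ((mem_Pr0 hy0).2 ⟨hp, hpy⟩)
    apply h3
    rw [hZ0 p hp]
    exact (mem_ZD hp.pos).2 ⟨d, hd, hdvd⟩
  calc c1 * c2 * (SS D * (X / Real.log X ^ (r + 1)))
      = c1 * X * (c2 * (SS D / Real.log X ^ (r + 1))) := by ring
    _ ≤ c1 * X * VV (ZD D) 0 ⌊(X : ℝ) ^ κ⌋₊ := mul_le_mul_of_nonneg_left hs1 (by positivity)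
    _ ≤ _ := h1
    _ ≤ _ := by exact_mod_cast card_le_card h2

lemma tprod_nonneg_aux {ι : Type*} (f : ι → ℝ) (h : ∀ i, 0 ≤ f i) : 0 ≤ ∏' i, f i := by
  by_cases hm : Multipliable f
  · exact ge_of_tendsto hm.hasProd (Filter.Eventually.of_forall fun s => prod_nonneg fun i _ => h i)
  · rw [tprod_eq_one_of_not_multipliable hm]
    norm_num

lemma SS_nonneg (D : Finset ℤ) : 0 ≤ SS D := by
  unfold SS
  apply tprod_nonneg_aux
  intro p
  have hp0 : (0 : ℝ) < (p : ℕ) := by exact_mod_cast p.2.pos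
  have h1 : nuD D p ≤ p := by
    rw [← card_ZD p.2.pos]
    calc (ZD D p).card ≤ (range (p : ℕ)).card :=
          card_le_card fun c hc => mem_range.2 (ZD_lt p.2.pos hc)
      _ = p := card_range _
  have h2 : (nuD D p : ℝ) / (p : ℕ) ≤ 1 := by
    rw [div_le_one hp0]
    exact_mod_cast h1
  have h3 : 1 / ((p : ℕ) : ℝ) ≤ 1 := by
    rw [div_le_one hp0]
    exact_mod_cast p.2.one_le
  unfold sf
  exact div_nonneg (by linarith) (pow_nonneg (by linarith) _)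

/-- a nonzero singular series: admissible -/
lemma adm_of_SS {D : Finset ℤ} (h : SS D ≠ 0) : ∀ p : ℕ, p.Prime → nuD D p < p := by
  intro p hp
  by_contra hcon
  push Not at hcon
  have h1 : nuD D p ≤ p := by
    rw [← card_ZD hp.pos]
    calc (ZD D p).card ≤ (range p).card := card_le_card fun c hc => mem_range.2 (ZD_lt hp.pos hc)
      _ = p := card_range p
  have h2 : nuD D p = p := le_antisymm h1 hcon
  apply h
  unfold SS
  apply tprod_of_exists_eq_zero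
  refine ⟨⟨p, hp⟩, ?_⟩
  show sf D.card (nuD D) p = 0
  unfold sf
  have hp0 : (p : ℝ) ≠ 0 := by exact_mod_cast hp.ne_zero
  rw [h2, div_self hp0, sub_self, zero_div]

end Pool.Agent.Y987.SZ
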